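import Mathlib

/-!
# Counting in laminar families

`P q e` is the set of level `q` of a laminar family that contains the element `e` (if there is one), `par` gives the set of
the previous level. The function `gf` is superadditive in a strong sense, which bounds the number of sets where the
family branches or loses mass.
-/

set_option autoImplicit false

namespace Pool.Agent.Lib.MP_183cce_co.TP

/-- an auxiliary convex function -/
noncomputable def gf (x : ℝ) : ℝ := max 0 (3 * x - 2)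

theorem gf_nonneg (x : ℝ) : 0 ≤ gf x := le_max_left _ _

theorem gf_ge (x : ℝ) : 3 * x - 2 ≤ gf x := le_max_right _ _

theorem gf_le {x : ℝ} (hx : 0 ≤ x) : gf x ≤ 3 * x := max_le (by linarith) (by linarith)

theorem gf_eq {x : ℝ} (hx : 2 / 3 ≤ x) : gf x = 3 * x - 2 := max_eq_right (by linarith)

theorem gf_zero {x : ℝ} (hx : x ≤ 2 / 3) : gf x = 0 := max_eq_left (by linarith)

theorem gf_key {r : ℝ} (h : 1 / 2 < r) : 1 + gf r ≤ 3 * r := by
  unfold gf
  rcases max_cases (0 : ℝ) (3 * r - 2) with h1 | h1 <;> linarith [h1.1]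

theorem gf_sum {α : Type*} (s : Finset α) (q : α → ℝ) (hq : ∀ l ∈ s, 0 ≤ q l) {x : ℝ}
    (hx : ∑ l ∈ s, q l ≤ x) : ∑ l ∈ s, gf (q l) ≤ gf x := by
  classical
  by_cases h : ∃ l ∈ s, 2 / 3 < q l
  · obtain ⟨l, hl, h⟩ := h
    rw [← Finset.add_sum_erase s _ hl] at hx ⊢
    have h1 : ∑ k ∈ s.erase l, gf (q k) ≤ 3 * ∑ k ∈ s.erase l, q k := by
      rw [Finset.mul_sum]
      exact Finset.sum_le_sum fun k hk => gf_le (hq k (Finset.mem_of_mem_erase hk))
    rw [gf_eq h.le]
    linarith [gf_ge x]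
  · push Not at h
    rw [Finset.sum_eq_zero fun l hl => gf_zero (h l hl)]
    exact gf_nonneg x

theorem local_one {α : Type*} [DecidableEq α] (s : Finset α) (q : α → ℝ)
    (hq : ∀ l ∈ s, 0 ≤ q l) {x : ℝ} (hx : ∑ l ∈ s, q l ≤ x) {l : α} (hl : l ∈ s)
    (h1 : 2 / 3 < q l) (h2 : 1 / 2 < x - q l) : 1 + ∑ k ∈ s, gf (q k) ≤ gf x := by
  rw [← Finset.add_sum_erase s _ hl] at hx ⊢
  have h3 : ∑ k ∈ s.erase l, gf (q k) ≤ gf (x - q l) :=
    gf_sum _ _ (fun k hk => hq k (Finset.mem_of_mem_erase hk)) (by linarith)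
  rw [gf_eq h1.le]
  linarith [gf_ge x, gf_key h2]

theorem local_J {α : Type*} [DecidableEq α] (s : Finset α) (q : α → ℝ)
    (hq : ∀ l ∈ s, 0 ≤ q l) {x : ℝ} (hx : ∑ l ∈ s, q l ≤ x) :
    (({l ∈ s | 1 < q l ∧ 1 / 2 < x - q l} : Finset α).card : ℝ) + ∑ l ∈ s, gf (q l) ≤ gf x := by
  classical
  set J : Finset α := {l ∈ s | 1 < q l ∧ 1 / 2 < x - q l} with hJ
  rcases Nat.lt_or_ge J.card 2 with h | h
  · interval_cases hc : J.card
    · simpa using gf_sum s q hq hx
    · obtain ⟨l, hl⟩ := Finset.card_eq_one.1 hc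
      have hlJ : l ∈ J := by rw [hl]; exact Finset.mem_singleton_self l
      have hl' := (Finset.mem_filter.1 hlJ)
      rw [Nat.cast_one]
      exact local_one s q hq hx hl'.1 (by linarith [hl'.2.1]) hl'.2.2
  · have h1 : ∑ l ∈ s, gf (q l) ≤ ∑ l ∈ s, (3 * q l - if l ∈ J then 2 else 0) := by
      refine Finset.sum_le_sum fun l hl => ?_
      by_cases hlJ : l ∈ J
      · rw [if_pos hlJ, gf_eq]
        linarith [(Finset.mem_filter.1 hlJ).2.1]
      · rw [if_neg hlJ, sub_zero]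
        exact gf_le (hq l hl)
    have h2 : ∑ l ∈ s, (3 * q l - if l ∈ J then (2 : ℝ) else 0) = 3 * ∑ l ∈ s, q l - 2 * J.card := by
      rw [Finset.sum_sub_distrib, ← Finset.mul_sum, ← Finset.sum_filter,
        Finset.filter_mem_eq_inter, Finset.inter_eq_right.2 (Finset.filter_subset _ _),
        Finset.sum_const, nsmul_eq_mul, mul_comm (2 : ℝ)]
    have h3 : (2 : ℝ) ≤ J.card := by exact_mod_cast h
    linarith [gf_ge x]

theorem local_W {α : Type*} [DecidableEq α] (s : Finset α) (q : α → ℝ)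
    (hq : ∀ l ∈ s, 0 ≤ q l) {x : ℝ} (hx : ∑ l ∈ s, q l ≤ x) (h1 : 1 < x)
    (h2 : ∀ l ∈ s, 1 / 2 < x - q l) : 1 + ∑ l ∈ s, gf (q l) ≤ gf x := by
  by_cases h : ∃ l ∈ s, 2 / 3 < q l
  · obtain ⟨l, hl, h⟩ := h
    exact local_one s q hq hx hl h (h2 l hl)
  · push Not at h
    rw [Finset.sum_eq_zero fun l hl => gf_zero (h l hl)]
    linarith [gf_ge x]

section tower

variable {E N : Type*} [Fintype E] [Fintype N] [DecidableEq N]

/-- the mass of a set of the family -/
noncomputable def fm (m : E → ℝ) (P : ℕ → E → Option N) (q : ℕ) (ν : N) : ℝ :=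
  ∑ e, if P q e = some ν then m e else 0

omit [Fintype N] in
theorem fm_nonneg {m : E → ℝ} (hm : ∀ e, 0 ≤ m e) (P : ℕ → E → Option N) (q : ℕ) (ν : N) :
    0 ≤ fm m P q ν := Finset.sum_nonneg fun e _ => by split_ifs <;> [exact hm e; exact le_rfl]

theorem fm_children {m : E → ℝ} (hm : ∀ e, 0 ≤ m e) {P : ℕ → E → Option N} {par : N → N}
    (hP : ∀ q e ν, P (q + 1) e = some ν → P q e = some (par ν)) (q : ℕ) (ν : N) :
    ∑ ν' with par ν' = ν, fm m P (q + 1) ν' ≤ fm m P q ν := by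
  unfold fm
  rw [Finset.sum_comm]
  refine Finset.sum_le_sum fun e _ => ?_
  rcases h : P (q + 1) e with _ | μ
  · simp only [reduceCtorEq, if_false, Finset.sum_const_zero]
    split_ifs <;> [exact hm e; exact le_rfl]
  · have h1 := hP q e μ h
    simp only [Option.some.injEq]
    rw [Finset.sum_ite_eq, h1]
    simp only [Finset.mem_filter, Finset.mem_univ, true_and, Option.some.injEq, le_refl]

theorem fm_sum_le (m : E → ℝ) (P : ℕ → E → Option N) (q : ℕ) :
    ∑ ν, fm m P q ν ≤ ∑ e, if P q e = none then 0 else m e := by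
  unfold fm
  rw [Finset.sum_comm]
  refine Finset.sum_le_sum fun e _ => ?_
  rcases h : P q e with _ | μ
  · simp
  · simp

/-- sets with mass above 1 which lose mass 1/2 when one passes to them -/
noncomputable def setJ (m : E → ℝ) (P : ℕ → E → Option N) (par : N → N) (q : ℕ) : Finset N :=
  {ν | 1 < fm m P (q + 1) ν ∧ 1 / 2 < fm m P q (par ν) - fm m P (q + 1) ν}

/-- sets with mass above 1 which lose mass 1/2 when one passes to any of their children -/
noncomputable def setW (m : E → ℝ) (P : ℕ → E → Option N) (par : N → N) (q : ℕ) : Finset N :=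
  {ν | 1 < fm m P q ν ∧ ∀ ν', par ν' = ν → 1 / 2 < fm m P q ν - fm m P (q + 1) ν'}

theorem card_J {m : E → ℝ} (hm : ∀ e, 0 ≤ m e) {P : ℕ → E → Option N} {par : N → N}
    (hP : ∀ q e ν, P (q + 1) e = some ν → P q e = some (par ν)) (q : ℕ) :
    ((setJ m P par q).card : ℝ) + ∑ ν, gf (fm m P (q + 1) ν) ≤ ∑ ν, gf (fm m P q ν) := by
  classical
  have h1 : ((setJ m P par q).card : ℝ) =
      ∑ ν, (({ν' ∈ ({ν' | par ν' = ν} : Finset N) |
        1 < fm m P (q + 1) ν' ∧ 1 / 2 < fm m P q ν - fm m P (q + 1) ν'} : Finset N).card : ℝ) := by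
    rw [Finset.card_eq_sum_card_fiberwise (f := par) (t := Finset.univ) fun _ _ => Finset.mem_coe.2 (Finset.mem_univ _)]
    push_cast
    refine Finset.sum_congr rfl fun ν _ => ?_
    congr 2
    ext ν'
    simp only [setJ, Finset.mem_filter, Finset.mem_univ, true_and]
    constructor
    · rintro ⟨⟨h1, h2⟩, rfl⟩
      exact ⟨rfl, h1, h2⟩
    · rintro ⟨rfl, h1, h2⟩
      exact ⟨⟨h1, h2⟩, rfl⟩
  have h2 : ∑ ν, gf (fm m P (q + 1) ν) =
      ∑ ν, ∑ ν' with par ν' = ν, gf (fm m P (q + 1) ν') :=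
    (Finset.sum_fiberwise Finset.univ par fun ν => gf (fm m P (q + 1) ν)).symm
  rw [h1, h2, ← Finset.sum_add_distrib]
  refine Finset.sum_le_sum fun ν _ => ?_
  exact local_J _ _ (fun l _ => fm_nonneg hm P _ l) (fm_children hm hP q ν)

theorem card_W {m : E → ℝ} (hm : ∀ e, 0 ≤ m e) {P : ℕ → E → Option N} {par : N → N}
    (hP : ∀ q e ν, P (q + 1) e = some ν → P q e = some (par ν)) (q : ℕ) :
    ((setW m P par q).card : ℝ) + ∑ ν, gf (fm m P (q + 1) ν) ≤ ∑ ν, gf (fm m P q ν) := by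
  classical
  have h1 : ((setW m P par q).card : ℝ) = ∑ ν, if ν ∈ setW m P par q then (1 : ℝ) else 0 := by
    rw [← Finset.sum_filter, Finset.sum_const, nsmul_eq_mul, mul_one]
    congr 2
    ext ν
    simp
  have h2 : ∑ ν, gf (fm m P (q + 1) ν) =
      ∑ ν, ∑ ν' with par ν' = ν, gf (fm m P (q + 1) ν') :=
    (Finset.sum_fiberwise Finset.univ par fun ν => gf (fm m P (q + 1) ν)).symm
  rw [h1, h2, ← Finset.sum_add_distrib]
  refine Finset.sum_le_sum fun ν _ => ?_
  have h3 := fm_children hm hP q ν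
  split_ifs with h
  · rw [setW, Finset.mem_filter] at h
    exact local_W _ _ (fun l _ => fm_nonneg hm P _ l) h3 h.2.1
      fun l hl => h.2.2 l (Finset.mem_filter.1 hl).2
  · rw [zero_add]
    exact gf_sum _ _ (fun l _ => fm_nonneg hm P _ l) h3

theorem gf_total {m : E → ℝ} (hm : ∀ e, 0 ≤ m e) (P : ℕ → E → Option N) (q : ℕ) :
    ∑ ν, gf (fm m P q ν) ≤ 3 * ∑ e, if P q e = none then 0 else m e := by
  calc ∑ ν, gf (fm m P q ν) ≤ ∑ ν, 3 * fm m P q ν :=
        Finset.sum_le_sum fun ν _ => gf_le (fm_nonneg hm P q ν)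
    _ = 3 * ∑ ν, fm m P q ν := by rw [Finset.mul_sum]
    _ ≤ _ := by linarith [fm_sum_le m P q]

/-- the number of special sets is at most six times the mass -/
theorem card_total {m : E → ℝ} (hm : ∀ e, 0 ≤ m e) {P : ℕ → E → Option N} {par : N → N}
    (hP : ∀ q e ν, P (q + 1) e = some ν → P q e = some (par ν)) (T : ℕ) :
    ∑ q ∈ Finset.range T, (((setJ m P par q).card : ℝ) + (setW m P par (q + 1)).card) ≤
      6 * ∑ e, if P 0 e = none then 0 else m e := by
  have hJ : ∀ T, ∑ q ∈ Finset.range T, ((setJ m P par q).card : ℝ) ≤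
      ∑ ν, gf (fm m P 0 ν) - ∑ ν, gf (fm m P T ν) := by
    intro T
    induction T with
    | zero => simp
    | succ T ih =>
      rw [Finset.sum_range_succ]
      linarith [card_J hm hP T]
  have hW : ∀ T, ∑ q ∈ Finset.range T, ((setW m P par (q + 1)).card : ℝ) ≤
      ∑ ν, gf (fm m P 1 ν) - ∑ ν, gf (fm m P (T + 1) ν) := by
    intro T
    induction T with
    | zero => simp
    | succ T ih =>
      rw [Finset.sum_range_succ]
      linarith [card_W hm hP (T + 1)]
  rw [Finset.sum_add_distrib]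
  have h0 := card_W hm hP 0
  have h1 : (0 : ℝ) ≤ (setW m P par 0).card := Nat.cast_nonneg _
  have h2 := gf_total hm P 0
  have h3 : 0 ≤ ∑ ν, gf (fm m P T ν) := Finset.sum_nonneg fun _ _ => gf_nonneg _
  have h4 : 0 ≤ ∑ ν, gf (fm m P (T + 1) ν) := Finset.sum_nonneg fun _ _ => gf_nonneg _
  have h5 : ∑ ν, gf (fm m P (0 + 1) ν) = ∑ ν, gf (fm m P 1 ν) := rfl
  linarith [hJ T, hW T]

end tower

end Pool.Agent.Lib.MP_183cce_co.TP
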