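import Pool.Agent.Lib.MP_183cce_co.BF

/-!
# An adaptive Beck-Fiala argument

Every row `q` has a potential `Φ q`. If for every set `F` of floating variables there are fewer than `F.card` rows such
that each row `q` has active mass at most `Φ q` or is close to one of these rows `r`, in the sense that the distance plus
`Φ r` is at most `Φ q`, then all rounding errors are at most `Φ`.
-/

set_option autoImplicit false

namespace Pool.Agent.Lib.MP_183cce_co.TP

open Pool.Agent.Lib.MP_183cce_co

/-- a nonzero vector supported on `F` and orthogonal to fewer than `F.card` rows -/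
theorem kernel {Q ι : Type*} [Fintype ι] [DecidableEq ι] (B : Q → ι → ℝ)
    (F : Finset ι) (A : Finset Q) (h : A.card < F.card) :
    ∃ y : ι → ℝ, y ≠ 0 ∧ (∀ i, i ∉ F → y i = 0) ∧ ∀ q ∈ A, ∑ i, B q i * y i = 0 := by
  classical
  obtain ⟨y, h1, h2, h3⟩ := bf_kernel (fun (q : A) i => B q i) F Finset.univ (by simpa using h)
  exact ⟨y, h1, h2, fun q hq => h3 ⟨q, hq⟩ (Finset.mem_univ _)⟩

theorem adapt_unit {Q ι : Type*} [Fintype ι] (B : Q → ι → ℝ) (Φ : Q → ℝ) (hΦ : ∀ q, 0 ≤ Φ q)
    (h : ∀ F : Finset ι, F.Nonempty → ∃ A : Finset Q, A.card < F.card ∧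
      ∀ q, (∑ i ∈ F, |B q i| ≤ Φ q) ∨ ∃ r ∈ A, ∑ i ∈ F, |B q i - B r i| + Φ r ≤ Φ q) :
    ∀ (N : ℕ) (z : ι → ℝ), (∀ i, 0 ≤ z i) → (∀ i, z i ≤ 1) →
      (Finset.univ.filter fun i => z i ≠ 0 ∧ z i ≠ 1).card = N →
      ∃ a : ι → ℝ, (∀ i, a i = 0 ∨ a i = 1) ∧ (∀ i, z i = 0 ∨ z i = 1 → a i = z i) ∧
        ∀ q, |∑ i, B q i * (z i - a i)| ≤ Φ q := by
  classical
  intro N
  induction N using Nat.strong_induction_on with
  | _ N ih =>
  intro z hz0 hz1 hN
  set F : Finset ι := Finset.univ.filter fun i => z i ≠ 0 ∧ z i ≠ 1 with hF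
  have hmemF : ∀ i, i ∈ F ↔ z i ≠ 0 ∧ z i ≠ 1 := fun i => by simp [hF]
  rcases Nat.eq_zero_or_pos N with h0 | hpos
  · refine ⟨z, fun i => ?_, fun _ _ => rfl, fun q => by simpa using hΦ q⟩
    by_contra hcon
    push Not at hcon
    have : i ∈ F := (hmemF i).2 hcon
    rw [h0, Finset.card_eq_zero] at hN
    rw [hN] at this
    simp at this
  · obtain ⟨A, hcard, hA⟩ := h F (Finset.card_pos.1 (by omega))
    obtain ⟨y, hy0, hyF, hyA⟩ := kernel B F A hcard
    obtain ⟨t, ht0, ht1, i0, hi00, hi01, hi0⟩ := bf_move z y hz0 hz1 (fun i hi => by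
      apply hyF
      rw [hmemF]
      push Not
      intro h
      exact hi.resolve_left h) hy0
    have hsub : (Finset.univ.filter fun i => z i + t * y i ≠ 0 ∧ z i + t * y i ≠ 1) ⊂ F := by
      refine (Finset.ssubset_iff_of_subset ?_).2 ⟨i0, (hmemF i0).2 ⟨hi00, hi01⟩, ?_⟩
      · intro i hi
        by_contra hcon
        have hyi := hyF i hcon
        rw [Finset.mem_filter, hyi, mul_zero, add_zero] at hi
        exact hcon ((hmemF i).2 hi.2)
      · intro hi
        rw [Finset.mem_filter] at hi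
        rcases hi0 with h | h
        · exact hi.2.1 h
        · exact hi.2.2 h
    obtain ⟨a, ha01, haz, haq⟩ := ih _ (hN ▸ Finset.card_lt_card hsub)
      (fun i => z i + t * y i) ht0 ht1 rfl
    have haz' : ∀ i, i ∉ F → a i = z i := by
      intro i hi
      have hyi := hyF i hi
      have hzi : z i = 0 ∨ z i = 1 := by
        by_contra hcon
        push Not at hcon
        exact hi ((hmemF i).2 hcon)
      have h1 := haz i (by rw [hyi, mul_zero, add_zero]; exact hzi)
      simpa [hyi] using h1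
    have hza : ∀ i, |z i - a i| ≤ 1 := by
      intro i
      have := hz0 i
      have := hz1 i
      rcases ha01 i with h | h <;> rw [h, abs_le] <;> constructor <;> linarith
    have hoff : ∀ w : ι → ℝ, |∑ i, w i * (z i - a i)| ≤ ∑ i ∈ F, |w i| := by
      intro w
      have h3 : ∑ i, w i * (z i - a i) = ∑ i ∈ F, w i * (z i - a i) := by
        refine (Finset.sum_subset (Finset.subset_univ F) fun i _ hi => ?_).symm
        rw [haz' i hi, sub_self, mul_zero]
      rw [h3]
      calc |∑ i ∈ F, w i * (z i - a i)| ≤ ∑ i ∈ F, |w i * (z i - a i)| :=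
            Finset.abs_sum_le_sum_abs _ _
        _ ≤ ∑ i ∈ F, |w i| := by
            refine Finset.sum_le_sum fun i _ => ?_
            rw [abs_mul]
            exact mul_le_of_le_one_right (abs_nonneg _) (hza i)
    refine ⟨a, ha01, fun i hi => haz' i ?_, fun q => ?_⟩
    · rw [hmemF]
      push Not
      intro h
      exact hi.resolve_left h
    · rcases hA q with hq | ⟨r, hr, hq⟩
      · exact (hoff (B q)).trans hq
      · have h1 := haq r
        have h2 : ∑ i, B r i * (z i + t * y i - a i) = ∑ i, B r i * (z i - a i) := by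
          have e : ∀ i, B r i * (z i + t * y i - a i) =
              B r i * (z i - a i) + t * (B r i * y i) := fun i => by ring
          simp_rw [e]
          rw [Finset.sum_add_distrib, ← Finset.mul_sum, hyA r hr, mul_zero, add_zero]
        rw [h2] at h1
        have h3 := hoff (fun i => B q i - B r i)
        have h4 : ∑ i, B q i * (z i - a i) =
            ∑ i, (B q i - B r i) * (z i - a i) + ∑ i, B r i * (z i - a i) := by
          rw [← Finset.sum_add_distrib]
          exact Finset.sum_congr rfl fun i _ => by ring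
        rw [h4]
        exact (abs_add_le _ _).trans ((add_le_add h3 h1).trans hq)

/-- **Adaptive Beck-Fiala.** -/
theorem adapt {Q ι : Type*} [Fintype ι] (B : Q → ι → ℝ) (Φ : Q → ℝ) (hΦ : ∀ q, 0 ≤ Φ q)
    (h : ∀ F : Finset ι, F.Nonempty → ∃ A : Finset Q, A.card < F.card ∧
      ∀ q, (∑ i ∈ F, |B q i| ≤ Φ q) ∨ ∃ r ∈ A, ∑ i ∈ F, |B q i - B r i| + Φ r ≤ Φ q)
    (x : ι → ℝ) :
    ∃ a : ι → ℤ, (∀ i, |x i - a i| ≤ 1) ∧ ∀ q, |∑ i, (x i - a i) * B q i| ≤ Φ q := by
  classical
  obtain ⟨a, ha01, -, haq⟩ := adapt_unit B Φ hΦ h _ (fun i => Int.fract (x i))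
    (fun i => Int.fract_nonneg _) (fun i => (Int.fract_lt_one _).le) rfl
  choose b hb using fun i => (show ∃ b : ℤ, (b : ℝ) = a i by
    rcases ha01 i with h | h
    · exact ⟨0, by rw [h]; simp⟩
    · exact ⟨1, by rw [h]; simp⟩)
  refine ⟨fun i => ⌊x i⌋ + b i, fun i => ?_, fun q => ?_⟩
  · have h1 : x i - ((⌊x i⌋ + b i : ℤ) : ℝ) = Int.fract (x i) - a i := by
      push_cast
      rw [hb, Int.fract]
      ring
    rw [h1]
    have h2 := Int.fract_nonneg (x i)
    have h3 := (Int.fract_lt_one (x i)).le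
    rcases ha01 i with h | h <;> rw [h, abs_le] <;> constructor <;> linarith
  · have h1 : ∑ i, (x i - ((⌊x i⌋ + b i : ℤ) : ℝ)) * B q i =
        ∑ i, B q i * (Int.fract (x i) - a i) := by
      refine Finset.sum_congr rfl fun i _ => ?_
      push_cast
      rw [hb, Int.fract]
      ring
    rw [h1]
    exact haq q

end Pool.Agent.Lib.MP_183cce_co.TP
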