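import Pool.Agent.Lib.MP_183cce_co.TP.Mono

/-!
# Lattices generated by vectors on paths of forests
-/

set_option autoImplicit false

namespace Pool.Agent.Lib.MP_183cce_co.TP

/-- every real combination of the vectors `v i` is within `B` in `ℓ∞` of an integer combination, with the coefficients
moved by at most `1` -/
def Rounds {V : Type} {n : ℕ} (v : Fin n → V → ℝ) (B : ℝ) : Prop :=
  ∀ x : Fin n → ℝ, ∃ a : Fin n → ℤ, (∀ i, |x i - a i| ≤ 1) ∧
    ∀ t, |∑ i, (x i - a i) * v i t| ≤ B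

/-- the `ℓ∞` covering radius of the integer span of the vectors `v i`, relative to their real span, is at most `B` -/
def CoveringRadiusLE {V : Type} {n : ℕ} (v : Fin n → V → ℝ) (B : ℝ) : Prop :=
  ∀ y ∈ Submodule.span ℝ (Set.range v), ∃ z ∈ AddSubgroup.closure (Set.range v),
    ∀ t, |y t - z t| ≤ B

theorem Rounds.covering {V : Type} {n : ℕ} {v : Fin n → V → ℝ} {B : ℝ} (h : Rounds v B) :
    CoveringRadiusLE v B := by
  intro y hy
  obtain ⟨x, rfl⟩ := (Submodule.mem_span_range_iff_exists_fun ℝ).1 hy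
  obtain ⟨a, -, ha⟩ := h x
  refine ⟨∑ i, a i • v i, sum_mem fun i _ => (AddSubgroup.closure (Set.range v)).zsmul_mem
    (AddSubgroup.subset_closure (Set.mem_range_self i)) (a i), fun t => ?_⟩
  have e : (∑ i, x i • v i) t - (∑ i, a i • v i) t = ∑ i, (x i - a i) * v i t := by
    rw [Finset.sum_apply, Finset.sum_apply, ← Finset.sum_sub_distrib]
    refine Finset.sum_congr rfl fun i _ => ?_
    simp only [Pi.smul_apply, smul_eq_mul, zsmul_eq_mul]
    ring
  rw [e]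
  exact ha t

open Classical in
/-- `v` is a combination `∑ ρ, lam ρ • w_κ • 1_P` of indicator vectors of (vertex sets of) paths `P` of the graphs
`G κ`, where `∑ ρ, |lam ρ| (1 + ⌊log₂ |P|⌋)⁴ ≤ 1`, with `|P|` the number of vertices of `P` -/
def PathSum {R V : Type} (G : R → SimpleGraph V) (w : R → ℝ) (v : V → ℝ) : Prop :=
  ∃ (S : ℕ) (lam : Fin S → ℝ) (κ : Fin S → R) (s t : Fin S → V)
    (P : ∀ ρ, (G (κ ρ)).Walk (s ρ) (t ρ)), (∀ ρ, (P ρ).IsPath) ∧
    ∑ ρ, |lam ρ| * (1 + (Nat.log 2 ((P ρ).length + 1) : ℝ)) ^ 4 ≤ 1 ∧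
    ∀ y, v y = ∑ ρ, if y ∈ (P ρ).support then lam ρ * w (κ ρ) else 0

/-- `v` is a combination `∑ ρ, lam ρ • w_κ • f ρ` with `∑ ρ, |lam ρ| ≤ 1` of vectors `f ρ ≥ 0` of `ℓ_p` norm at most
one, each of which vanishes outside a path of the graph `G κ` and is nonincreasing along this path -/
def MonoSum {R V : Type} [Fintype V] (G : R → SimpleGraph V) (w : R → ℝ) (p : ℕ)
    (v : V → ℝ) : Prop :=
  ∃ (S : ℕ) (lam : Fin S → ℝ) (κ : Fin S → R) (f : Fin S → V → ℝ),
    ∑ ρ, |lam ρ| ≤ 1 ∧ (∀ ρ, MonoOnPath (G (κ ρ)) p (f ρ)) ∧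
    ∀ y, v y = ∑ ρ, lam ρ * w (κ ρ) * f ρ y

theorem path_sum_rounds {R V : Type} [Fintype R] [Fintype V] (G : R → SimpleGraph V)
    (hG : ∀ κ, (G κ).IsAcyclic) (w : R → ℝ) (hw : ∀ κ, 0 < w κ) (n : ℕ) (v : Fin n → V → ℝ)
    (hv : ∀ i, PathSum G w (v i)) : Rounds v (888 * ∑ κ, w κ) := by
  classical
  choose S lam κ s t P hP hcost hval using hv
  intro x
  obtain ⟨a, ha1, ha2⟩ := path_round G hG w hw (fun e : (i : Fin n) × Fin (S i) => e.1)
    (fun e => lam e.1 e.2 * w (κ e.1 e.2)) (fun e => κ e.1 e.2)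
    (fun e k => (P e.1 e.2).getVert k) (fun e => (P e.1 e.2).length)
    (fun e k hk => (P e.1 e.2).adj_getVert_succ hk)
    (fun e a ha b hb hab => (hP e.1 e.2).getVert_injOn ha hb hab) (by
      intro i
      rw [Fintype.sum_sigma, Finset.sum_eq_single_of_mem i (Finset.mem_univ _)
        (fun b _ hb => Finset.sum_eq_zero fun s _ => by rw [if_neg hb])]
      refine le_trans (le_of_eq (Finset.sum_congr rfl fun ρ _ => ?_)) (hcost i)
      have hwr := hw (κ i ρ)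
      rw [if_pos rfl, abs_mul, abs_of_pos hwr, add_comm (Nat.log 2 _ : ℝ) 1]
      field_simp) x
  refine ⟨a, ha1, fun y => ?_⟩
  refine le_trans (le_of_eq ?_) (ha2 y)
  congr 1
  rw [Fintype.sum_sigma]
  refine Finset.sum_congr rfl fun i _ => ?_
  rw [hval i y, Finset.mul_sum]
  refine Finset.sum_congr rfl fun ρ _ => ?_
  have h1 : (∃ k ≤ (P i ρ).length, (P i ρ).getVert k = y) ↔ y ∈ (P i ρ).support := by
    rw [SimpleGraph.Walk.mem_support_iff_exists_getVert]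
    constructor
    · rintro ⟨k, h1, h2⟩
      exact ⟨k, h2, h1⟩
    · rintro ⟨k, h1, h2⟩
      exact ⟨k, h2, h1⟩
  by_cases h2 : y ∈ (P i ρ).support
  · rw [if_pos h2, if_pos (h1.2 h2)]
  · rw [if_neg h2, if_neg (fun h => h2 (h1.1 h)), mul_zero]

theorem mono_sum_rounds (p : ℕ) (hp : 1 ≤ p) : ∃ C : ℝ, 0 < C ∧ ∀ {R V : Type} [Fintype R]
    [Fintype V] (G : R → SimpleGraph V), (∀ κ, (G κ).IsAcyclic) → ∀ w : R → ℝ, (∀ κ, 0 < w κ) →
    ∀ (n : ℕ) (v : Fin n → V → ℝ), (∀ i, MonoSum G w p (v i)) → Rounds v (C * ∑ κ, w κ) := by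
  obtain ⟨C, hC, h⟩ := mono_round p hp
  refine ⟨C, hC, ?_⟩
  intro R V _ _ G hG w hw n v hv
  choose S lam κ f hlam hf hval using hv
  intro x
  obtain ⟨a, ha1, ha2⟩ := h G hG w hw (fun e : (i : Fin n) × Fin (S i) => e.1)
    (fun e => lam e.1 e.2) (by
      intro i
      rw [Fintype.sum_sigma, Finset.sum_eq_single_of_mem i (Finset.mem_univ _)]
      · refine le_trans (le_of_eq (Finset.sum_congr rfl fun ρ _ => ?_)) (hlam i)
        exact Set.indicator_of_mem
          (show (⟨i, ρ⟩ : (i : Fin n) × Fin (S i)) ∈ {s | s.1 = i} from rfl) _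
      · intro b _ hb
        exact Finset.sum_eq_zero fun s _ => Set.indicator_of_notMem
          (show (⟨b, s⟩ : (i : Fin n) × Fin (S i)) ∉ {s | s.1 = i} from hb) _)
    (fun e => κ e.1 e.2) (fun e => f e.1 e.2) (fun e => hf e.1 e.2) x
  refine ⟨a, ha1, fun y => ?_⟩
  refine le_trans (le_of_eq ?_) (ha2 y)
  congr 1
  rw [Fintype.sum_sigma]
  refine Finset.sum_congr rfl fun i _ => ?_
  rw [hval i y, Finset.mul_sum]

end Pool.Agent.Lib.MP_183cce_co.TP
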