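import Pool.Agent.Lib.MP_183cce_co.TP.Path

/-!
# Functions which are monotone along a path
-/

set_option autoImplicit false

namespace Pool.Agent.Lib.MP_183cce_co.TP

/-- grouping by the number of binary digits -/
theorem dyadic_sum (h : ℕ → ℝ) (h0 : ∀ k, 0 ≤ h k) (J : ℕ) :
    ∑ k ∈ Finset.range (2 ^ J - 1), (h k - h (k + 1)) * ((Nat.log 2 (k + 1) : ℝ) + 1) ^ 4 ≤
      ∑ j ∈ Finset.range J, ((j : ℝ) + 1) ^ 4 * h (2 ^ j - 1) := by
  induction J with
  | zero => simp
  | succ J ih =>
    have hpos : 1 ≤ 2 ^ J := Nat.one_le_two_pow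
    have hle : 2 ^ J - 1 ≤ 2 ^ (J + 1) - 1 := by
      have : 2 ^ J ≤ 2 ^ (J + 1) := Nat.pow_le_pow_right (by norm_num) (by omega)
      omega
    rw [Finset.sum_range_succ, ← Finset.sum_range_add_sum_Ico _ hle]
    refine add_le_add ih ?_
    have h1 : ∀ k ∈ Finset.Ico (2 ^ J - 1) (2 ^ (J + 1) - 1),
        (h k - h (k + 1)) * ((Nat.log 2 (k + 1) : ℝ) + 1) ^ 4 =
          ((J : ℝ) + 1) ^ 4 * (h k - h (k + 1)) := by
      intro k hk
      rw [Finset.mem_Ico] at hk
      have h2 : Nat.log 2 (k + 1) = J := by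
        rw [Nat.log_eq_iff (Or.inr ⟨by norm_num, by omega⟩)]
        omega
      rw [h2, mul_comm]
    rw [Finset.sum_congr rfl h1, ← Finset.mul_sum]
    refine mul_le_mul_of_nonneg_left ?_ (by positivity)
    have h3 : ∑ k ∈ Finset.Ico (2 ^ J - 1) (2 ^ (J + 1) - 1), (h k - h (k + 1)) =
        h (2 ^ J - 1) - h (2 ^ (J + 1) - 1) := by
      have := Finset.sum_Ico_sub h hle
      rw [← neg_inj, ← Finset.sum_neg_distrib]
      rw [← this.trans (by ring : h (2 ^ (J + 1) - 1) - h (2 ^ J - 1) =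
        -(h (2 ^ J - 1) - h (2 ^ (J + 1) - 1)))]
      exact Finset.sum_congr rfl fun k _ => by ring
    rw [h3]
    linarith [h0 (2 ^ (J + 1) - 1)]

theorem geom_bound (p : ℕ) (hp : 1 ≤ p) : ∃ K : ℝ, 0 < K ∧ ∀ (h : ℕ → ℝ), (∀ k, 0 ≤ h k) →
    (∀ k : ℕ, ((k : ℝ) + 1) * h k ^ p ≤ 1) → ∀ J : ℕ,
      ∑ j ∈ Finset.range J, ((j : ℝ) + 1) ^ 4 * h (2 ^ j - 1) ≤ K := by
  set r : ℝ := (1 / 2 : ℝ) ^ (1 / (p : ℝ)) with hr
  have hp0 : (p : ℝ) ≠ 0 := by positivity
  have hr0 : 0 < r := by positivity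
  have hr1 : r < 1 := Real.rpow_lt_one (by norm_num) (by norm_num) (by positivity)
  have hrp : r ^ p = 1 / 2 := by
    rw [hr, ← Real.rpow_natCast, ← Real.rpow_mul (by norm_num), one_div_mul_cancel hp0,
      Real.rpow_one]
  have hs : Summable fun n : ℕ => ((n : ℝ) + 1) ^ 4 * r ^ n := by
    have h1 := summable_pow_mul_geometric_of_norm_lt_one 4 (r := r)
      (by rw [Real.norm_eq_abs, abs_of_pos hr0]; exact hr1)
    have h2 := ((summable_nat_add_iff 1).2 h1).mul_right r⁻¹
    refine h2.congr fun n => ?_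
    push_cast
    rw [show r ^ (n + 1) = r ^ n * r from pow_succ r n, mul_assoc, mul_assoc,
      mul_inv_cancel₀ hr0.ne', mul_one]
  refine ⟨(∑' n : ℕ, ((n : ℝ) + 1) ^ 4 * r ^ n) + 1, ?_, fun h h0 hk J => ?_⟩
  · have : 0 ≤ ∑' n : ℕ, ((n : ℝ) + 1) ^ 4 * r ^ n := tsum_nonneg fun n => by positivity
    linarith
  · have h1 : ∀ j, h (2 ^ j - 1) ≤ r ^ j := by
      intro j
      have h2 := hk (2 ^ j - 1)
      have h3 : (((2 ^ j - 1 : ℕ) : ℝ) + 1) = 2 ^ j := by
        rw [Nat.cast_sub Nat.one_le_two_pow]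
        push_cast
        ring
      rw [h3] at h2
      have h4 : h (2 ^ j - 1) ^ p ≤ (r ^ j) ^ p := by
        rw [← pow_mul, mul_comm j p, pow_mul, hrp, one_div, inv_pow, ← one_div,
          le_div_iff₀ (by positivity)]
        linarith
      exact le_of_pow_le_pow_left₀ (by omega) (by positivity) h4
    calc ∑ j ∈ Finset.range J, ((j : ℝ) + 1) ^ 4 * h (2 ^ j - 1) ≤
          ∑ j ∈ Finset.range J, ((j : ℝ) + 1) ^ 4 * r ^ j :=
          Finset.sum_le_sum fun j _ => mul_le_mul_of_nonneg_left (h1 j) (by positivity)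
      _ ≤ ∑' n : ℕ, ((n : ℝ) + 1) ^ 4 * r ^ n := hs.sum_le_tsum _ fun n _ => by positivity
      _ ≤ _ := by linarith

/-- `f` is nonnegative, its `ℓ_p` norm is at most one, it vanishes outside a path of `G`, and it is nonincreasing along
this path -/
def MonoOnPath {V : Type} [Fintype V] (G : SimpleGraph V) (p : ℕ) (f : V → ℝ) : Prop :=
  (∀ v, 0 ≤ f v) ∧ ∑ v, f v ^ p ≤ 1 ∧ ∃ (s t : V) (q : G.Walk s t), q.IsPath ∧
    (∀ v, v ∉ q.support → f v = 0) ∧ ∀ i < q.length, f (q.getVert (i + 1)) ≤ f (q.getVert i)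

theorem mono_round (p : ℕ) (hp : 1 ≤ p) : ∃ C : ℝ, 0 < C ∧ ∀ {R V A ι : Type} [Fintype R]
    [Fintype V] [Fintype A] [Fintype ι] (G : R → SimpleGraph V) (_ : ∀ f, (G f).IsAcyclic)
    (w : R → ℝ) (_ : ∀ f, 0 < w f) (vr : A → ι) (lam : A → ℝ)
    (_ : ∀ i, ∑ s, (Set.indicator {s | vr s = i} (fun s => |lam s|) s) ≤ 1)
    (fr : A → R) (f : A → V → ℝ) (_ : ∀ s, MonoOnPath (G (fr s)) p (f s)) (x : ι → ℝ),
    ∃ a : ι → ℤ, (∀ i, |x i - a i| ≤ 1) ∧ ∀ t,
      |∑ s, (x (vr s) - a (vr s)) * (lam s * w (fr s) * f s t)| ≤ C * ∑ κ, w κ := by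
  classical
  obtain ⟨K, hK, hgeom⟩ := geom_bound p hp
  refine ⟨888 * K, by positivity, ?_⟩
  intro R V A ι _ _ _ _ G hG w hw vr lam hlam fr f hf x
  choose hf0 hfp s₀ t₀ q hq hsupp hmono using hf
  -- number of steps
  obtain ⟨J, hJ⟩ : ∃ J : ℕ, ∀ s, (q s).length < 2 ^ J - 1 := by
    set L := (Finset.univ : Finset A).sup fun s => (q s).length with hL
    refine ⟨L + 2, fun s => ?_⟩
    have h1 : (q s).length ≤ L := Finset.le_sup (f := fun s => (q s).length) (Finset.mem_univ s)
    have h2 : L + 2 < 2 ^ (L + 2) := Nat.lt_two_pow_self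
    omega
  set N := 2 ^ J - 1 with hN
  set h : A → ℕ → ℝ := fun s k => if k ≤ (q s).length then f s ((q s).getVert k) else 0 with hh
  have hh0 : ∀ s k, 0 ≤ h s k := fun s k => by
    simp only [hh]
    split_ifs <;> [exact hf0 s _; exact le_rfl]
  have hhanti : ∀ s k, h s (k + 1) ≤ h s k := fun s k => by
    by_cases hk : k + 1 ≤ (q s).length
    · simp only [hh]
      rw [if_pos hk, if_pos (by omega)]
      exact hmono s k (by omega)
    · have : h s (k + 1) = 0 := by simp only [hh]; rw [if_neg hk]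
      rw [this]
      exact hh0 s k
  have hhle : ∀ s, ∀ k ≤ (q s).length, ∀ m ≤ k,
      f s ((q s).getVert k) ≤ f s ((q s).getVert m) := by
    intro s k hk m hm
    have h1 : h s k ≤ h s m := antitone_nat_of_succ_le (hhanti s) hm
    simp only [hh] at h1
    rw [if_pos hk, if_pos (by omega)] at h1
    exact h1
  have hinj : ∀ s, ∀ a ≤ (q s).length, ∀ b ≤ (q s).length,
      (q s).getVert a = (q s).getVert b → a = b := fun s a ha b hb hab =>
    (hq s).getVert_injOn ha hb hab
  have hhp : ∀ s (k : ℕ), ((k : ℝ) + 1) * h s k ^ p ≤ 1 := by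
    intro s k
    by_cases hk : k ≤ (q s).length
    · have h1 : h s k = f s ((q s).getVert k) := by simp only [hh]; rw [if_pos hk]
      rw [h1]
      have h2 : ((k : ℝ) + 1) * f s ((q s).getVert k) ^ p ≤
          ∑ m ∈ Finset.range (k + 1), f s ((q s).getVert m) ^ p := by
        calc ((k : ℝ) + 1) * f s ((q s).getVert k) ^ p =
              ∑ m ∈ Finset.range (k + 1), f s ((q s).getVert k) ^ p := by
                rw [Finset.sum_const, Finset.card_range, nsmul_eq_mul]
                push_cast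
                ring
          _ ≤ _ := Finset.sum_le_sum fun m hm => pow_le_pow_left₀ (hf0 s _)
              (hhle s k hk m (by have := Finset.mem_range.1 hm; omega)) p
      have h3 : ∑ m ∈ Finset.range (k + 1), f s ((q s).getVert m) ^ p ≤ ∑ v, f s v ^ p := by
        rw [← Finset.sum_image (s := Finset.range (k + 1)) (g := fun m => (q s).getVert m)
          (f := fun v => f s v ^ p) (by
            intro a ha b hb hab
            have ha' := Finset.mem_range.1 ha
            have hb' := Finset.mem_range.1 hb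
            exact hinj s a (by omega) b (by omega) hab)]
        exact Finset.sum_le_sum_of_subset_of_nonneg (Finset.subset_univ _)
          fun v _ _ => pow_nonneg (hf0 s v) p
      exact h2.trans (h3.trans (hfp s))
    · have h1 : h s k = 0 := by simp only [hh]; rw [if_neg hk]
      rw [h1, zero_pow (by omega), mul_zero]
      norm_num
  have hcost : ∀ s, ∑ k ∈ Finset.range N,
      (h s k - h s (k + 1)) * ((Nat.log 2 (k + 1) : ℝ) + 1) ^ 4 ≤ K := fun s =>
    (dyadic_sum (h s) (hh0 s) J).trans (hgeom (h s) (hh0 s) (hhp s) J)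
  obtain ⟨a, ha1, ha2⟩ := path_round G hG (fun κ => K * w κ) (fun κ => by have := hw κ; positivity)
    (fun e : A × Fin N => vr e.1)
    (fun e => lam e.1 * w (fr e.1) * (h e.1 (e.2 : ℕ) - h e.1 ((e.2 : ℕ) + 1)))
    (fun e => fr e.1) (fun e k => (q e.1).getVert k)
    (fun e => min (e.2 : ℕ) (q e.1).length)
    (fun e k hk => (q e.1).adj_getVert_succ (by omega))
    (fun e a ha b hb hab => hinj e.1 a (by omega) b (by omega) hab) (by
      intro i
      rw [Fintype.sum_prod_type]
      refine le_trans (Finset.sum_le_sum fun s _ => ?_) (hlam i)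
      by_cases hi : vr s = i
      swap
      · rw [Set.indicator_of_notMem (show s ∉ {s | vr s = i} from hi)]
        exact (Finset.sum_eq_zero fun k _ => by rw [if_neg hi]).le
      rw [Set.indicator_of_mem (show s ∈ {s | vr s = i} from hi)]
      have hwr := hw (fr s)
      have h1 : ∑ k : Fin N, (if vr s = i then
          |lam s * w (fr s) * (h s (k : ℕ) - h s ((k : ℕ) + 1))| *
            ((Nat.log 2 (min (k : ℕ) (q s).length + 1) : ℝ) + 1) ^ 4 / (K * w (fr s))
          else 0) ≤ ∑ k : Fin N, |lam s| / K *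
            ((h s (k : ℕ) - h s ((k : ℕ) + 1)) * ((Nat.log 2 ((k : ℕ) + 1) : ℝ) + 1) ^ 4) := by
        refine Finset.sum_le_sum fun k _ => ?_
        rw [if_pos hi, abs_mul, abs_mul, abs_of_pos hwr,
          abs_of_nonneg (sub_nonneg.2 (hhanti s k))]
        have h2 : ((Nat.log 2 (min (k : ℕ) (q s).length + 1) : ℝ) + 1) ^ 4 ≤
            ((Nat.log 2 ((k : ℕ) + 1) : ℝ) + 1) ^ 4 := by
          refine pow_le_pow_left₀ (by positivity) ?_ 4
          have : Nat.log 2 (min (k : ℕ) (q s).length + 1) ≤ Nat.log 2 ((k : ℕ) + 1) :=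
            Nat.log_mono_right (by omega)
          have h3 : (Nat.log 2 (min (k : ℕ) (q s).length + 1) : ℝ) ≤
            (Nat.log 2 ((k : ℕ) + 1) : ℝ) := by exact_mod_cast this
          linarith
        have h4 : |lam s| * w (fr s) * (h s (k : ℕ) - h s ((k : ℕ) + 1)) *
            ((Nat.log 2 (min (k : ℕ) (q s).length + 1) : ℝ) + 1) ^ 4 / (K * w (fr s)) =
            |lam s| / K * ((h s (k : ℕ) - h s ((k : ℕ) + 1)) *
              ((Nat.log 2 (min (k : ℕ) (q s).length + 1) : ℝ) + 1) ^ 4) := by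
          field_simp
        rw [h4]
        refine mul_le_mul_of_nonneg_left ?_ (by positivity)
        exact mul_le_mul_of_nonneg_left h2 (sub_nonneg.2 (hhanti s k))
      refine h1.trans ?_
      rw [← Finset.mul_sum, Fin.sum_univ_eq_sum_range (fun k =>
        (h s k - h s (k + 1)) * ((Nat.log 2 (k + 1) : ℝ) + 1) ^ 4) N]
      have h5 := mul_le_mul_of_nonneg_left (hcost s) (by positivity : (0 : ℝ) ≤ |lam s| / K)
      refine h5.trans (le_of_eq ?_)
      field_simp) x
  refine ⟨a, ha1, fun t => ?_⟩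
  have h1 := ha2 t
  rw [← Finset.mul_sum] at h1
  have h2 : ∑ s, (x (vr s) - a (vr s)) * (lam s * w (fr s) * f s t) =
      ∑ e : A × Fin N, if ∃ k ≤ min (e.2 : ℕ) (q e.1).length,
        (q e.1).getVert k = t then (x (vr e.1) - a (vr e.1)) * (lam e.1 * w (fr e.1) *
      (h e.1 (e.2 : ℕ) - h e.1 ((e.2 : ℕ) + 1))) else 0 := by
    rw [Fintype.sum_prod_type]
    refine Finset.sum_congr rfl fun s _ => ?_
    dsimp only
    by_cases ht : t ∈ (q s).support
    · obtain ⟨m, hm, hml⟩ := SimpleGraph.Walk.mem_support_iff_exists_getVert.1 ht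
      have hcond : ∀ k : ℕ, (∃ k' ≤ min k (q s).length, (q s).getVert k' = t) ↔ m ≤ k := by
        intro k
        constructor
        · rintro ⟨k', hk', hk''⟩
          have := hinj s k' (by omega) m hml (hk''.trans hm.symm)
          omega
        · intro hk
          exact ⟨m, by omega, hm⟩
      simp only [hcond]
      rw [Fin.sum_univ_eq_sum_range (fun k => if m ≤ k then (x (vr s) - a (vr s)) *
        (lam s * w (fr s) * (h s k - h s (k + 1))) else 0) N, ← Finset.sum_filter]
      have hNl := hJ s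
      have hfil : (Finset.range N).filter (fun k => m ≤ k) = Finset.Ico m N := by
        ext k
        simp only [Finset.mem_filter, Finset.mem_range, Finset.mem_Ico]
        omega
      rw [hfil]
      have htel : ∑ k ∈ Finset.Ico m N, (h s k - h s (k + 1)) = h s m - h s N := by
        have hmN : m ≤ N := by omega
        have := Finset.sum_Ico_sub (h s) hmN
        rw [← neg_inj, ← Finset.sum_neg_distrib, neg_sub, ← this]
        exact Finset.sum_congr rfl fun k _ => by ring
      have hfm : h s m = f s t := by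
        simp only [hh]
        rw [if_pos hml, hm]
      have hfN : h s N = 0 := by
        simp only [hh]
        rw [if_neg (by omega)]
      rw [hfm, hfN, sub_zero] at htel
      rw [← htel, Finset.mul_sum, Finset.mul_sum]
    · rw [hsupp s t ht, mul_zero, mul_zero]
      symm
      refine Finset.sum_eq_zero fun k _ => ?_
      rw [if_neg]
      rintro ⟨k', hk', hk''⟩
      exact ht (SimpleGraph.Walk.mem_support_iff_exists_getVert.2 ⟨k', hk'', by omega⟩)
  rw [h2]
  refine h1.trans (le_of_eq ?_)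
  ring

end Pool.Agent.Lib.MP_183cce_co.TP
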