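import Pool.Agent.Lib.MP_183cce_co.TP.Seg

/-!
# Rounding for paths in forests
-/

set_option autoImplicit false

namespace Pool.Agent.Lib.MP_183cce_co.TP

open Classical in
theorem path_round {R V E ι : Type*} [Fintype R] [Fintype V] [Fintype E] [Fintype ι]
    (G : R → SimpleGraph V) (hG : ∀ f, (G f).IsAcyclic) (w : R → ℝ) (hw : ∀ f, 0 < w f)
    (vr : E → ι) (c : E → ℝ) (fr : E → R) (u : E → ℕ → V) (l : E → ℕ)
    (hadj : ∀ e, ∀ i < l e, (G (fr e)).Adj (u e i) (u e (i + 1)))
    (hinj : ∀ e, ∀ i ≤ l e, ∀ j ≤ l e, u e i = u e j → i = j)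
    (hb : ∀ i, ∑ e, (if vr e = i then
      |c e| * ((Nat.log 2 (l e + 1) : ℝ) + 1) ^ 4 / w (fr e) else 0) ≤ 1)
    (x : ι → ℝ) :
    ∃ a : ι → ℤ, (∀ i, |x i - a i| ≤ 1) ∧ ∀ t,
      |∑ e, if ∃ i ≤ l e, u e i = t then (x (vr e) - a (vr e)) * c e else 0| ≤
        888 * ∑ f, w f := by
  choose par dep hr using fun f => exists_rooted (G f) (hG f)
  choose b₁ n₁ b₂ n₂ hn1 hn2 hd1 hd2 hiff hdis using fun e =>
    (hr (fr e)).two_segs (u e) (l e) (hadj e) (hinj e)
  have hlog : ∀ e, l e + 1 ≤ 2 ^ (Nat.log 2 (l e + 1) + 1) := fun e =>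
    (Nat.lt_pow_succ_log_self (by norm_num) _).le
  obtain ⟨a, ha1, ha2⟩ := seg_round hr (fun f => 2 * w f) (fun f => by have := hw f; positivity)
    (fun s : E × Bool => vr s.1) (fun s => c s.1) (fun s => fr s.1)
    (fun s => if s.2 = true then b₁ s.1 else b₂ s.1)
    (fun s => if s.2 = true then n₁ s.1 else n₂ s.1) (fun s => Nat.log 2 (l s.1 + 1)) (by
      rintro ⟨e, s⟩
      have := hlog e
      have := hn1 e
      have := hn2 e
      dsimp only
      split_ifs <;> omega) (by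
      rintro ⟨e, s⟩
      dsimp only
      split_ifs
      · exact hd1 e
      · exact hd2 e) (by
      intro i
      rw [Fintype.sum_prod_type]
      refine le_trans (le_of_eq ?_) (hb i)
      refine Finset.sum_congr rfl fun e _ => ?_
      rw [Fintype.sum_bool]
      dsimp only
      have := (hw (fr e)).ne'
      split_ifs
      · field_simp
        ring
      · ring) x
  refine ⟨a, ha1, fun t => ?_⟩
  have h1 := ha2 t
  rw [Fintype.sum_prod_type] at h1
  have h2 : ∑ e, (if ∃ i ≤ l e, u e i = t then (x (vr e) - a (vr e)) * c e else 0) =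
      ∑ e, ∑ s : Bool, if OnSeg (par (fr e)) (dep (fr e))
        (if s = true then b₁ e else b₂ e) (if s = true then n₁ e else n₂ e) t then
          (x (vr e) - a (vr e)) * c e else 0 := by
    refine Finset.sum_congr rfl fun e _ => ?_
    rw [Fintype.sum_bool]
    simp only [if_true, Bool.false_eq_true, if_false]
    have h3 := hiff e t
    have h4 := hdis e t
    by_cases h5 : OnSeg (par (fr e)) (dep (fr e)) (b₁ e) (n₁ e) t
    · have h6 : ¬ OnSeg (par (fr e)) (dep (fr e)) (b₂ e) (n₂ e) t := fun h => h4 ⟨h5, h⟩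
      rw [if_pos (h3.2 (Or.inl h5)), if_pos h5, if_neg h6, add_zero]
    · by_cases h6 : OnSeg (par (fr e)) (dep (fr e)) (b₂ e) (n₂ e) t
      · rw [if_pos (h3.2 (Or.inr h6)), if_neg h5, if_pos h6, zero_add]
      · rw [if_neg (fun h => (h3.1 h).elim h5 h6), if_neg h5, if_neg h6, zero_add]
  rw [h2]
  refine h1.trans (le_of_eq ?_)
  rw [← Finset.mul_sum]
  ring

end Pool.Agent.Lib.MP_183cce_co.TP
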