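import Pool.Agent.Lib.MP_183cce_co.TP.Count

/-!
# Reference sets in laminar families

For a set of mass above 2 there is a special set inside it which contains all but mass 1 of it and whose level has a larger
`2`-adic valuation, unless the set itself is special.
-/

set_option autoImplicit false

namespace Pool.Agent.Lib.MP_183cce_co.TP

variable {E N : Type*} [Fintype E] [Fintype N] [DecidableEq N]

omit [Fintype E] [Fintype N] [DecidableEq N] in
theorem P_iter {P : ℕ → E → Option N} {par : N → N}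
    (hP : ∀ q e ν, P (q + 1) e = some ν → P q e = some (par ν)) (k : ℕ) : ∀ (q : ℕ) (e : E) (ν : N),
    P (q + k) e = some ν → P q e = some (par^[k] ν) := by
  induction k with
  | zero => intro q e ν h; simpa using h
  | succ k ih =>
    intro q e ν h
    rw [Function.iterate_succ_apply]
    exact ih q e (par ν) (hP (q + k) e ν h)

omit [Fintype N] in
theorem fm_anc {m : E → ℝ} (hm : ∀ e, 0 ≤ m e) {P : ℕ → E → Option N} {par : N → N}
    (hP : ∀ q e ν, P (q + 1) e = some ν → P q e = some (par ν)) (k q : ℕ) (ν : N) :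
    fm m P (q + k) ν ≤ fm m P q (par^[k] ν) := by
  unfold fm
  refine Finset.sum_le_sum fun e _ => ?_
  by_cases h : P (q + k) e = some ν
  · rw [if_pos h, if_pos (P_iter hP k q e ν h)]
  · rw [if_neg h]
    split_ifs <;> [exact hm e; exact le_rfl]

/-- the special sets, with their levels -/
noncomputable def spec (m : E → ℝ) (P : ℕ → E → Option N) (par : N → N) (L T : ℕ) :
    Finset (ℕ × N) :=
  (Finset.range (L + 1)).biUnion fun l => (Finset.range T).biUnion fun q =>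
    (setJ m (fun k => P (k * 2 ^ l)) (par^[2 ^ l]) q ∪
      setW m (fun k => P (k * 2 ^ l)) (par^[2 ^ l]) (q + 1)).image fun ν => ((q + 1) * 2 ^ l, ν)

theorem spec_card {m : E → ℝ} (hm : ∀ e, 0 ≤ m e) {P : ℕ → E → Option N} {par : N → N}
    (hP : ∀ q e ν, P (q + 1) e = some ν → P q e = some (par ν)) (L T : ℕ) :
    ((spec m P par L T).card : ℝ) ≤
      6 * ((L : ℝ) + 1) * ∑ e, if P 0 e = none then 0 else m e := by
  have h1 : ((spec m P par L T).card : ℝ) ≤ ∑ l ∈ Finset.range (L + 1), ∑ q ∈ Finset.range T,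
      (((setJ m (fun k => P (k * 2 ^ l)) (par^[2 ^ l]) q).card : ℝ) +
        (setW m (fun k => P (k * 2 ^ l)) (par^[2 ^ l]) (q + 1)).card) := by
    have h : (spec m P par L T).card ≤ ∑ l ∈ Finset.range (L + 1), ∑ q ∈ Finset.range T,
      ((setJ m (fun k => P (k * 2 ^ l)) (par^[2 ^ l]) q).card +
        (setW m (fun k => P (k * 2 ^ l)) (par^[2 ^ l]) (q + 1)).card) := by
      refine Finset.card_biUnion_le.trans (Finset.sum_le_sum fun l _ => ?_)
      refine Finset.card_biUnion_le.trans (Finset.sum_le_sum fun q _ => ?_)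
      exact Finset.card_image_le.trans (Finset.card_union_le _ _)
    exact_mod_cast h
  refine h1.trans ?_
  have h2 : ∀ l ∈ Finset.range (L + 1), ∑ q ∈ Finset.range T,
      (((setJ m (fun k => P (k * 2 ^ l)) (par^[2 ^ l]) q).card : ℝ) +
        (setW m (fun k => P (k * 2 ^ l)) (par^[2 ^ l]) (q + 1)).card) ≤
      6 * ∑ e, if P 0 e = none then 0 else m e := by
    intro l _
    have := card_total hm (P := fun k => P (k * 2 ^ l)) (par := par^[2 ^ l])
      (fun q e ν h => P_iter hP (2 ^ l) (q * 2 ^ l) e ν (by rw [← Nat.succ_mul]; exact h)) T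
    simpa using this
  refine (Finset.sum_le_sum h2).trans ?_
  rw [Finset.sum_const, Finset.card_range, nsmul_eq_mul]
  push_cast
  linarith

theorem exists_ref {m : E → ℝ} (hm : ∀ e, 0 ≤ m e) {P : ℕ → E → Option N} {par : N → N}
    (hP : ∀ q e ν, P (q + 1) e = some ν → P q e = some (par ν)) {L : ℕ}
    (hL : ∀ q e, 2 ^ (L + 1) ≤ q → P q e = none) {d₀ : ℕ} (hd₀ : 1 ≤ d₀) (ν₀ : N)
    (h2 : 2 < fm m P d₀ ν₀) :
    ∃ d ν, (d, ν) ∈ spec m P par L (2 ^ (L + 1)) ∧ d₀ ≤ d ∧ par^[d - d₀] ν = ν₀ ∧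
      fm m P d₀ ν₀ - fm m P d ν ≤ 1 ∧
      ((d = d₀ ∧ ν = ν₀) ∨ padicValNat 2 d₀ < padicValNat 2 d) ∧ padicValNat 2 d ≤ L := by
  classical
  have hfm0 : ∀ d ν, 2 ^ (L + 1) ≤ d → fm m P d ν = 0 := by
    intro d ν hd
    unfold fm
    refine Finset.sum_eq_zero fun e _ => ?_
    rw [hL d e hd]
    simp
  have hd₀' : d₀ < 2 ^ (L + 1) := by
    by_contra h
    rw [hfm0 d₀ ν₀ (not_lt.1 h)] at h2
    norm_num at h2
  set Al : Finset ℕ := (Finset.range (2 ^ (L + 1))).filter fun d =>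
    d₀ ≤ d ∧ ∃ ν, par^[d - d₀] ν = ν₀ ∧ fm m P d₀ ν₀ - fm m P d ν ≤ 1 with hAl
  have hmem : ∀ d ν, d < 2 ^ (L + 1) → d₀ ≤ d → par^[d - d₀] ν = ν₀ →
      fm m P d₀ ν₀ - fm m P d ν ≤ 1 → d ∈ Al := fun d ν h1 h2 h3 h4 =>
    Finset.mem_filter.2 ⟨Finset.mem_range.2 h1, h2, ν, h3, h4⟩
  have h0mem : d₀ ∈ Al := hmem d₀ ν₀ hd₀' le_rfl (by simp) (by simp)
  obtain ⟨d₁, hd₁, hmax₁⟩ := Al.exists_max_image (padicValNat 2) ⟨d₀, h0mem⟩
  obtain ⟨d, ν, hdlt, hle, hpar, hdiff, hval, hmax⟩ : ∃ d ν, d < 2 ^ (L + 1) ∧ d₀ ≤ d ∧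
      par^[d - d₀] ν = ν₀ ∧ fm m P d₀ ν₀ - fm m P d ν ≤ 1 ∧
      ((d = d₀ ∧ ν = ν₀) ∨ padicValNat 2 d₀ < padicValNat 2 d) ∧
      ∀ d' ∈ Al, padicValNat 2 d' ≤ padicValNat 2 d := by
    by_cases hv : padicValNat 2 d₀ < padicValNat 2 d₁
    · obtain ⟨h1, h2, ν, h3, h4⟩ := Finset.mem_filter.1 hd₁
      exact ⟨d₁, ν, Finset.mem_range.1 h1, h2, h3, h4, Or.inr hv, hmax₁⟩
    · exact ⟨d₀, ν₀, hd₀', le_rfl, by simp, by simp, Or.inl ⟨rfl, rfl⟩,
        fun d' hd' => (hmax₁ d' hd').trans (not_lt.1 hv)⟩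
  set l := padicValNat 2 d with hl
  have hdne : d ≠ 0 := by omega
  have hdvd : 2 ^ l ∣ d := pow_padicValNat_dvd
  have hndvd : ¬ 2 ^ (l + 1) ∣ d := by
    rw [padicValNat_dvd_iff_le hdne]
    omega
  obtain ⟨q, hq⟩ := hdvd
  have hq0 : q ≠ 0 := by rintro rfl; exact hdne (by simpa using hq)
  obtain ⟨p, rfl⟩ := Nat.exists_eq_succ_of_ne_zero hq0
  have hpeven : 2 ∣ p := by
    rcases Nat.even_or_odd p with h | h
    · exact h.two_dvd
    · exfalso
      apply hndvd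
      obtain ⟨k, hk⟩ := h
      rw [hq, pow_succ]
      refine mul_dvd_mul_left _ ⟨k + 1, ?_⟩
      omega
  have hd : d = (p + 1) * 2 ^ l := by rw [hq, mul_comm]
  have hlL : l ≤ L := by
    have h1 : 2 ^ l ≤ d := by
      rw [hd]
      exact Nat.le_mul_of_pos_left _ (Nat.succ_pos p)
    have := (Nat.pow_lt_pow_iff_right (by norm_num : 1 < 2)).1 (h1.trans_lt hdlt)
    omega
  have h2l : 0 < 2 ^ l := by positivity
  have hpd : p < 2 ^ (L + 1) := by
    have : p < (p + 1) * 2 ^ l := by nlinarith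
    omega
  -- the window above
  have hup : p * 2 ^ l < d₀ := by
    by_contra hge
    push Not at hge
    have h1 : par^[p * 2 ^ l - d₀] (par^[2 ^ l] ν) = ν₀ := by
      rw [← Function.iterate_add_apply, ← hpar]
      congr 1
      rw [hd, add_mul]
      omega
    have h3 := fm_anc hm hP (2 ^ l) (p * 2 ^ l) ν
    rw [← Nat.succ_mul, ← hd] at h3
    have h4 := hmax _ (hmem (p * 2 ^ l) (par^[2 ^ l] ν) (by rw [hd, add_mul] at hdlt; omega) hge h1
      (by linarith))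
    have h5 : p * 2 ^ l ≠ 0 := by omega
    have h6 : 2 ^ (l + 1) ∣ p * 2 ^ l := by
      rw [pow_succ, mul_comm p]
      exact mul_dvd_mul_left _ hpeven
    rw [padicValNat_dvd_iff_le h5] at h6
    omega
  have hU : fm m P d₀ ν₀ ≤ fm m P (p * 2 ^ l) (par^[2 ^ l] ν) := by
    have h3 := fm_anc hm hP (d₀ - p * 2 ^ l) (p * 2 ^ l) ν₀
    rw [Nat.add_sub_cancel' hup.le] at h3
    have h4 : par^[d₀ - p * 2 ^ l] ν₀ = par^[2 ^ l] ν := by
      rw [← hpar, ← Function.iterate_add_apply]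
      congr 1
      rw [hd, add_mul] at hle ⊢
      omega
    rwa [h4] at h3
  have hS : ∀ ν', par^[2 ^ l] ν' = ν → 1 < fm m P d₀ ν₀ - fm m P ((p + 1 + 1) * 2 ^ l) ν' := by
    intro ν' hν'
    by_contra hle'
    push Not at hle'
    rcases Nat.lt_or_ge ((p + 1 + 1) * 2 ^ l) (2 ^ (L + 1)) with h | h
    · have h1 : par^[(p + 1 + 1) * 2 ^ l - d₀] ν' = ν₀ := by
        rw [← hpar, ← hν', ← Function.iterate_add_apply]
        congr 1
        rw [hd, Nat.succ_mul (p + 1)]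
        rw [hd] at hle
        omega
      have h4 := hmax _ (hmem ((p + 1 + 1) * 2 ^ l) ν' h (by
        rw [Nat.succ_mul (p + 1), ← hd]; omega) h1 hle')
      have h5 : (p + 1 + 1) * 2 ^ l ≠ 0 := by positivity
      have h6 : 2 ^ (l + 1) ∣ (p + 1 + 1) * 2 ^ l := by
        rw [pow_succ, mul_comm (p + 1 + 1)]
        exact mul_dvd_mul_left _ (by omega)
      rw [padicValNat_dvd_iff_le h5] at h6
      omega
    · rw [hfm0 _ _ h] at hle'
      linarith
  refine ⟨d, ν, ?_, hle, hpar, hdiff, hval, hlL⟩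
  unfold spec
  rw [Finset.mem_biUnion]
  refine ⟨l, Finset.mem_range.2 (by omega), ?_⟩
  rw [Finset.mem_biUnion]
  refine ⟨p, Finset.mem_range.2 hpd, ?_⟩
  rw [Finset.mem_image]
  refine ⟨ν, ?_, by rw [← hd]⟩
  rw [Finset.mem_union]
  have h1 : 1 < fm m P ((p + 1) * 2 ^ l) ν := by rw [← hd]; linarith
  by_cases hJ : 1 / 2 < fm m P (p * 2 ^ l) (par^[2 ^ l] ν) - fm m P ((p + 1) * 2 ^ l) ν
  · left
    unfold setJ
    rw [Finset.mem_filter]
    exact ⟨Finset.mem_univ _, h1, hJ⟩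
  · right
    unfold setW
    rw [Finset.mem_filter]
    refine ⟨Finset.mem_univ _, h1, fun ν' hν' => ?_⟩
    have := hS ν' hν'
    change 1 / 2 < fm m P ((p + 1) * 2 ^ l) ν - fm m P ((p + 1 + 1) * 2 ^ l) ν'
    linarith

end Pool.Agent.Lib.MP_183cce_co.TP
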