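import Mathlib

/-!
# Rooting a forest; paths consist of two vertical segments
-/

set_option autoImplicit false

namespace Pool.Agent.Lib.MP_183cce_co.TP

/-- `par` and `dep` are the parent function and the depth of a rooting of the forest `G` -/
structure RootedBy {V : Type*} (G : SimpleGraph V) (par : V → V) (dep : V → ℕ) : Prop where
  dep_par : ∀ v, dep (par v) = dep v - 1
  par_root : ∀ v, dep v = 0 → par v = v
  adj : ∀ v w, G.Adj v w → (par v = w ∧ dep v = dep w + 1) ∨ (par w = v ∧ dep w = dep v + 1)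

theorem lower_unique {V : Type*} {G : SimpleGraph V} (hG : G.IsAcyclic) {r v w : V}
    (hr : G.Reachable r v) {p : G.Walk r v} (hp : p.IsPath) (hadj : G.Adj v w)
    (hd : G.dist r v = G.dist r w + 1) : w = p.penultimate := by
  obtain ⟨q, hq, hql⟩ := (hr.trans hadj.reachable).exists_path_of_dist
  have hv : v ∉ q.support := by
    intro hv
    have h1 := hG.path_concat hp hq hadj hv
    have h2 : q.length = p.length + 1 := by rw [h1, p.length_concat]
    have h3 := G.dist_le p
    omega
  exact hG.eq_penultimate_of_adj_end hp hadj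
    (hG.mem_support_of_ne_mem_support_of_adj_of_isPath hp hq hadj hv)

theorem exists_rooted {V : Type*} (G : SimpleGraph V) (hG : G.IsAcyclic) :
    ∃ (par : V → V) (dep : V → ℕ), RootedBy G par dep := by
  classical
  set rt : V → V := fun v => (G.connectedComponentMk v).out with hrt
  have hreach : ∀ v, G.Reachable (rt v) v := fun v =>
    SimpleGraph.ConnectedComponent.exact (Quot.out_eq (G.connectedComponentMk v))
  have hrtadj : ∀ v w, G.Adj v w → rt v = rt w := fun v w h => by
    simp only [hrt]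
    rw [SimpleGraph.ConnectedComponent.sound h.reachable]
  set dep : V → ℕ := fun v => G.dist (rt v) v with hdep
  have hstep : ∀ v w, G.Adj v w → dep v = dep w + 1 ∨ dep w = dep v + 1 := fun v w h => by
    simp only [hdep]
    rw [← hrtadj v w h]
    exact hG.dist_eq_dist_add_one_of_adj_of_reachable _ h (hreach v)
  have huniq : ∀ v w w', G.Adj v w → G.Adj v w' → dep v = dep w + 1 → dep v = dep w' + 1 →
      w = w' := by
    intro v w w' h h' hd hd'
    obtain ⟨p, hp, -⟩ := (hreach v).exists_path_of_dist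
    simp only [hdep] at hd hd'
    rw [← hrtadj v w h] at hd
    rw [← hrtadj v w' h'] at hd'
    rw [lower_unique hG (hreach v) hp h hd, lower_unique hG (hreach v) hp h' hd']
  have hex : ∀ v, dep v ≠ 0 → ∃ w, G.Adj v w ∧ dep v = dep w + 1 := by
    intro v hv
    obtain ⟨p, hp, hpl⟩ := (hreach v).exists_path_of_dist
    have hnil : ¬ p.Nil := by
      rw [SimpleGraph.Walk.not_nil_iff_lt_length]
      have : p.length = dep v := hpl
      omega
    have hadj : G.Adj p.penultimate v := p.adj_penultimate hnil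
    refine ⟨p.penultimate, hadj.symm, ?_⟩
    rcases hstep v p.penultimate hadj.symm with h | h
    · exact h
    · exfalso
      have h1 := G.dist_le p.dropLast
      have h2 : p.dropLast.length = p.length - 1 := by simp
      have h3 : dep p.penultimate = G.dist (rt v) p.penultimate := by
        obtain ⟨z, hz⟩ : ∃ z, z = p.penultimate := ⟨_, rfl⟩
        have h5 := hrtadj v p.penultimate hadj.symm
        rw [← hz] at h5 ⊢
        simp only [hdep]
        rw [h5]
      have h4 : p.length = dep v := hpl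
      omega
  set par : V → V := fun v => if h : ∃ w, G.Adj v w ∧ dep v = dep w + 1 then h.choose else v
    with hpar
  have hpar1 : ∀ v w, G.Adj v w → dep v = dep w + 1 → par v = w := by
    intro v w h hd
    have hx : ∃ w, G.Adj v w ∧ dep v = dep w + 1 := ⟨w, h, hd⟩
    have : par v = hx.choose := by simp only [hpar]; rw [dif_pos hx]
    rw [this]
    exact huniq v _ _ hx.choose_spec.1 h hx.choose_spec.2 hd
  refine ⟨par, dep, fun v => ?_, fun v hv => ?_, fun v w h => ?_⟩
  · by_cases hv : dep v = 0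
    · have : par v = v := by
        simp only [hpar]
        rw [dif_neg]
        rintro ⟨w, -, h⟩
        omega
      rw [this, hv]
    · obtain ⟨w, h, hd⟩ := hex v hv
      rw [hpar1 v w h hd]
      omega
  · simp only [hpar]
    rw [dif_neg]
    rintro ⟨w, -, h⟩
    omega
  · rcases hstep v w h with hd | hd
    · exact Or.inl ⟨hpar1 v w h hd, hd⟩
    · exact Or.inr ⟨hpar1 w v h.symm hd, hd⟩

section seg

variable {V : Type*} {G : SimpleGraph V} {par : V → V} {dep : V → ℕ}

theorem RootedBy.dep_iter (h : RootedBy G par dep) (n : ℕ) (v : V) :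
    dep (par^[n] v) = dep v - n := by
  induction n with
  | zero => simp
  | succ n ih =>
    rw [Function.iterate_succ_apply', h.dep_par, ih]
    omega

/-- `t` is one of the `n` vertices `b, par b, …` -/
def OnSeg (par : V → V) (dep : V → ℕ) (b : V) (n : ℕ) (t : V) : Prop :=
  dep t ≤ dep b ∧ par^[dep b - dep t] b = t ∧ dep b < dep t + n

theorem RootedBy.onSeg_iff (h : RootedBy G par dep) (b : V) (n : ℕ) (hn : n ≤ dep b + 1) (t : V) :
    OnSeg par dep b n t ↔ ∃ s < n, par^[s] b = t := by
  constructor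
  · rintro ⟨h1, h2, h3⟩
    exact ⟨dep b - dep t, by omega, h2⟩
  · rintro ⟨s, hs, rfl⟩
    have h1 := h.dep_iter s b
    refine ⟨by omega, ?_, by omega⟩
    congr 1
    rw [h1]
    have : dep b - (dep b - s) = s := by omega
    rw [this]

/-- up, then down -/
theorem RootedBy.apex (h : RootedBy G par dep) (u : ℕ → V) : ∀ l : ℕ,
    (∀ i < l, G.Adj (u i) (u (i + 1))) → (∀ i ≤ l, ∀ j ≤ l, u i = u j → i = j) →
    ∃ a ≤ l, (∀ i < a, par (u i) = u (i + 1) ∧ dep (u i) = dep (u (i + 1)) + 1) ∧
      ∀ i, a ≤ i → i < l → par (u (i + 1)) = u i ∧ dep (u (i + 1)) = dep (u i) + 1 := by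
  intro l
  induction l with
  | zero => intro _ _; exact ⟨0, le_rfl, fun i hi => by omega, fun i _ hi => by omega⟩
  | succ l ih =>
    intro hadj hinj
    obtain ⟨a, hal, hup, hdown⟩ := ih (fun i hi => hadj i (by omega))
      (fun i hi j hj => hinj i (by omega) j (by omega))
    rcases h.adj _ _ (hadj l (by omega)) with hs | hs
    · rcases Nat.lt_or_ge a l with hlt | hge
      · exfalso
        have h1 := hdown (l - 1) (by omega) (by omega)
        have h2 : l - 1 + 1 = l := by omega
        rw [h2] at h1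
        have h3 : u (l - 1) = u (l + 1) := h1.1.symm.trans hs.1
        have := hinj (l - 1) (by omega) (l + 1) le_rfl h3
        omega
      · have : a = l := le_antisymm hal hge
        subst this
        refine ⟨a + 1, le_rfl, fun i hi => ?_, fun i h1 h2 => by omega⟩
        rcases Nat.lt_or_ge i a with h1 | h1
        · exact hup i h1
        · have : i = a := by omega
          subst this
          exact hs
    · refine ⟨a, by omega, hup, fun i h1 h2 => ?_⟩
      rcases Nat.lt_or_ge i l with h3 | h3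
      · exact hdown i h1 h3
      · have : i = l := by omega
        subst this
        exact hs

/-- the vertex set of a path is the disjoint union of two vertical segments -/
theorem RootedBy.two_segs (h : RootedBy G par dep) (u : ℕ → V) (l : ℕ)
    (hadj : ∀ i < l, G.Adj (u i) (u (i + 1))) (hinj : ∀ i ≤ l, ∀ j ≤ l, u i = u j → i = j) :
    ∃ (b₁ : V) (n₁ : ℕ) (b₂ : V) (n₂ : ℕ), n₁ ≤ l + 1 ∧ n₂ ≤ l + 1 ∧ n₁ ≤ dep b₁ + 1 ∧
      n₂ ≤ dep b₂ + 1 ∧ (∀ t, (∃ i ≤ l, u i = t) ↔
        (OnSeg par dep b₁ n₁ t ∨ OnSeg par dep b₂ n₂ t)) ∧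
      ∀ t, ¬ (OnSeg par dep b₁ n₁ t ∧ OnSeg par dep b₂ n₂ t) := by
  obtain ⟨a, hal, hup, hdown⟩ := h.apex u l hadj hinj
  have h1 : ∀ i ≤ a, par^[i] (u 0) = u i ∧ dep (u 0) = dep (u i) + i := by
    intro i
    induction i with
    | zero => intro _; simp
    | succ i ih =>
      intro hi
      obtain ⟨h2, h3⟩ := ih (by omega)
      obtain ⟨h4, h5⟩ := hup i (by omega)
      exact ⟨by rw [Function.iterate_succ_apply', h2, h4], by omega⟩
  have h2 : ∀ k, k ≤ l - a → par^[k] (u l) = u (l - k) ∧ dep (u l) = dep (u (l - k)) + k := by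
    intro k
    induction k with
    | zero => intro _; simp
    | succ k ih =>
      intro hk
      obtain ⟨h2, h3⟩ := ih (by omega)
      obtain ⟨h4, h5⟩ := hdown (l - (k + 1)) (by omega) (by omega)
      have h6 : l - (k + 1) + 1 = l - k := by omega
      rw [h6] at h4 h5
      exact ⟨by rw [Function.iterate_succ_apply', h2, h4], by omega⟩
  have hn1 : a + 1 ≤ dep (u 0) + 1 := by have := (h1 a le_rfl).2; omega
  have hn2 : l - a ≤ dep (u l) + 1 := by have := (h2 (l - a) le_rfl).2; omega
  have hs1 : ∀ t, OnSeg par dep (u 0) (a + 1) t ↔ ∃ i ≤ a, u i = t := by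
    intro t
    rw [h.onSeg_iff _ _ hn1]
    constructor
    · rintro ⟨s, hs, rfl⟩
      exact ⟨s, by omega, ((h1 s (by omega)).1).symm⟩
    · rintro ⟨i, hi, rfl⟩
      exact ⟨i, by omega, (h1 i hi).1⟩
  have hs2 : ∀ t, OnSeg par dep (u l) (l - a) t ↔ ∃ i, a < i ∧ i ≤ l ∧ u i = t := by
    intro t
    rw [h.onSeg_iff _ _ hn2]
    constructor
    · rintro ⟨s, hs, rfl⟩
      exact ⟨l - s, by omega, by omega, ((h2 s (by omega)).1).symm⟩
    · rintro ⟨i, hi, hil, rfl⟩
      refine ⟨l - i, by omega, ?_⟩
      rw [(h2 (l - i) (by omega)).1]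
      congr 1
      omega
  refine ⟨u 0, a + 1, u l, l - a, by omega, by omega, hn1, hn2, fun t => ?_, fun t => ?_⟩
  · rw [hs1, hs2]
    constructor
    · rintro ⟨i, hi, rfl⟩
      rcases Nat.lt_or_ge a i with h3 | h3
      · exact Or.inr ⟨i, h3, hi, rfl⟩
      · exact Or.inl ⟨i, h3, rfl⟩
    · rintro (⟨i, hi, rfl⟩ | ⟨i, _, hi, rfl⟩)
      · exact ⟨i, by omega, rfl⟩
      · exact ⟨i, hi, rfl⟩
  · rw [hs1, hs2]
    rintro ⟨⟨i, hi, h3⟩, ⟨j, hj, hjl, h4⟩⟩
    have := hinj i (by omega) j hjl (h3.trans h4.symm)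
    omega

end seg

end Pool.Agent.Lib.MP_183cce_co.TP
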