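import Pool.Agent.Lib.MP_183cce_co.TP.Tower
import Pool.Agent.Lib.MP_183cce_co.TP.Root

/-!
# Rounding for vertical segments in rooted forests

At scale `j` a forest is cut into slabs of height `2 ^ (j + 1)`. The segments of length at most `2 ^ (j + 1)` through a
vertex `t` are those that start below `t` and end above the end of the slab, without those that end below `t`; both are
sets of laminar families of height `2 ^ (j + 1)`.
-/

set_option autoImplicit false

namespace Pool.Agent.Lib.MP_183cce_co.TP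

section slab

variable {R V E : Type*} [DecidableEq R]

/-- level `q` of the slab `κ.2.2.1` at scale `κ.2.1` of the forest `κ.1` -/
def slab (par : R → V → V) (dep : R → V → ℕ) (fr : E → R) (b : E → V) (len g : E → ℕ)
    (κ : R × ℕ × ℕ × Bool) (q : ℕ) (e : E) : Option (R × V) :=
  if fr e = κ.1 ∧ g e = κ.2.1 ∧
      dep (fr e) (b e) + 1 - len e < (κ.2.2.1 + 1) * 2 ^ (κ.2.1 + 1) ∧
      κ.2.2.1 * 2 ^ (κ.2.1 + 1) + q ≤
        (if κ.2.2.2 = true then dep (fr e) (b e) + 1 else dep (fr e) (b e) + 1 - len e) ∧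
      q ≤ 2 ^ (κ.2.1 + 1) then
    some (fr e, (par (fr e))^[dep (fr e) (b e) - (κ.2.2.1 * 2 ^ (κ.2.1 + 1) + q - 1)] (b e))
  else none

variable {par : R → V → V} {dep : R → V → ℕ} {G : R → SimpleGraph V} {fr : E → R} {b : E → V}
  {len g : E → ℕ}

theorem slab_par (hr : ∀ f, RootedBy (G f) (par f) (dep f)) (κ : R × ℕ × ℕ × Bool) (q : ℕ)
    (e : E) (ν : R × V) (h : slab par dep fr b len g κ (q + 1) e = some ν) :
    slab par dep fr b len g κ q e = some (ν.1, par ν.1 ν.2) := by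
  unfold slab at h ⊢
  rw [Option.ite_none_right_eq_some] at h
  obtain ⟨⟨h2, h3, h4, h5, h6⟩, h⟩ := h
  rw [if_pos ⟨h2, h3, h4, by omega, by omega⟩]
  rw [Option.some.injEq] at h
  subst h
  simp only [Option.some.injEq, Prod.mk.injEq, true_and]
  set s := κ.2.2.1 * 2 ^ (κ.2.1 + 1) + q with hs
  have h7 : s ≤ dep (fr e) (b e) := by
    split_ifs at h5 <;> omega
  have h8 : κ.2.2.1 * 2 ^ (κ.2.1 + 1) + (q + 1) - 1 = s := by omega
  rw [h8]
  rcases Nat.eq_zero_or_pos s with h0 | h0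
  · rw [h0]
    simp only [Nat.zero_sub, Nat.sub_zero]
    rw [(hr (fr e)).par_root]
    rw [(hr (fr e)).dep_iter]
    omega
  · rw [← Function.iterate_succ_apply' (par (fr e))]
    congr 1
    have : dep (fr e) (b e) - (s - 1) = (dep (fr e) (b e) - s).succ := by omega
    rw [this]

theorem slab_eq_iff (f : R) (j : ℕ) (s : Bool) (t : V) (e : E) :
    slab par dep fr b len g (f, j, dep f t / 2 ^ (j + 1), s) (dep f t % 2 ^ (j + 1) + 1) e =
      some (f, t) ↔
    fr e = f ∧ g e = j ∧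
      dep f (b e) + 1 - len e < (dep f t / 2 ^ (j + 1) + 1) * 2 ^ (j + 1) ∧
      dep f t + 1 ≤ (if s = true then dep f (b e) + 1 else dep f (b e) + 1 - len e) ∧
      (par f)^[dep f (b e) - dep f t] (b e) = t := by
  have h1 : dep f t / 2 ^ (j + 1) * 2 ^ (j + 1) + (dep f t % 2 ^ (j + 1) + 1) = dep f t + 1 := by
    rw [← add_assoc, Nat.div_add_mod']
  have h2 : dep f t % 2 ^ (j + 1) < 2 ^ (j + 1) := Nat.mod_lt _ (by positivity)
  unfold slab
  simp only
  rw [h1, Nat.add_sub_cancel, Option.ite_none_right_eq_some]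
  constructor
  · rintro ⟨⟨rfl, h4, h5, h6, -⟩, h⟩
    simp only [Option.some.injEq, Prod.mk.injEq, true_and] at h
    exact ⟨rfl, h4, h5, h6, h⟩
  · rintro ⟨rfl, h4, h5, h6, h7⟩
    exact ⟨⟨rfl, h4, h5, h6, by omega⟩, by rw [h7]⟩

theorem slab_card (J T : ℕ) (e : E) (hlen : len e ≤ 2 ^ (g e + 1)) [Fintype R] :
    ({κ : R × Fin J × Fin T × Bool | slab par dep fr b len g
      (κ.1, (κ.2.1 : ℕ), (κ.2.2.1 : ℕ), κ.2.2.2) 0 e ≠ none} : Finset _).card ≤ 3 := by
  classical
  set top := dep (fr e) (b e) + 1 - len e with htop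
  set D := 2 ^ (g e + 1) with hD
  have hD0 : 0 < D := by positivity
  set S : Finset (R × Fin J × Fin T × Bool) := {κ | slab par dep fr b len g
      (κ.1, (κ.2.1 : ℕ), (κ.2.2.1 : ℕ), κ.2.2.2) 0 e ≠ none} with hS
  have hcond : ∀ κ ∈ S, fr e = κ.1 ∧ g e = κ.2.1 ∧ top < (κ.2.2.1 + 1) * D ∧
      κ.2.2.1 * D ≤ (if κ.2.2.2 = true then dep (fr e) (b e) + 1 else top) := by
    intro κ hκ
    rw [hS, Finset.mem_filter] at hκ
    have h1 := hκ.2
    unfold slab at h1
    simp only [ne_eq, ite_eq_right_iff, not_forall] at h1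
    obtain ⟨⟨h2, h3, h4, h5, -⟩, -⟩ := h1
    rw [← h3] at h4 h5
    exact ⟨h2, h3, h4, by simpa using h5⟩
  have himg : S.image (fun κ => ((κ.2.2.1 : ℕ), κ.2.2.2)) ⊆
      {(top / D, true), (top / D + 1, true), (top / D, false)} := by
    intro y hy
    obtain ⟨κ, hκ, rfl⟩ := Finset.mem_image.1 hy
    obtain ⟨-, -, h3, h4⟩ := hcond κ hκ
    have h5 : top / D ≤ (κ.2.2.1 : ℕ) := by
      have := (Nat.div_lt_iff_lt_mul hD0).2 h3
      omega
    rcases hs : κ.2.2.2 with _ | _
    · rw [hs] at h4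
      simp only [Bool.false_eq_true, if_false] at h4
      have h6 : (κ.2.2.1 : ℕ) ≤ top / D := (Nat.le_div_iff_mul_le hD0).2 h4
      have h7 : (κ.2.2.1 : ℕ) = top / D := by omega
      simp [h7]
    · rw [hs] at h4
      simp only [if_true] at h4
      have h6 : (κ.2.2.1 : ℕ) ≤ (top + D) / D :=
        (Nat.le_div_iff_mul_le hD0).2 (h4.trans (by omega))
      rw [Nat.add_div_right _ hD0] at h6
      rcases Nat.lt_or_ge (top / D) (κ.2.2.1 : ℕ) with h7 | h7
      · have h8 : (κ.2.2.1 : ℕ) = top / D + 1 := by omega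
        simp [h8]
      · have h8 : (κ.2.2.1 : ℕ) = top / D := by omega
        simp [h8]
  have hinj : Set.InjOn (fun κ : R × Fin J × Fin T × Bool => ((κ.2.2.1 : ℕ), κ.2.2.2)) S := by
    rintro ⟨f, j, k, s⟩ h ⟨f', j', k', s'⟩ h' heq
    obtain ⟨h1, h2, -, -⟩ := hcond _ h
    obtain ⟨h1', h2', -, -⟩ := hcond _ h'
    simp only [Prod.mk.injEq] at heq h1 h2 h1' h2' ⊢
    exact ⟨h1.symm.trans h1', Fin.ext (h2.symm.trans h2'), Fin.ext heq.1, heq.2⟩
  rw [← Finset.card_image_of_injOn hinj]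
  exact (Finset.card_le_card himg).trans Finset.card_le_three

end slab

theorem sum_inv_sq (J : ℕ) : ∑ j ∈ Finset.range J, 1 / ((j : ℝ) + 1) ^ 2 ≤ 2 := by
  have h : ∀ J : ℕ, ∑ j ∈ Finset.range (J + 1), 1 / ((j : ℝ) + 1) ^ 2 ≤ 2 - 1 / ((J : ℝ) + 1) := by
    intro J
    induction J with
    | zero => norm_num
    | succ J ih =>
      rw [Finset.sum_range_succ]
      have h1 : (0 : ℝ) < (J : ℝ) + 1 := by positivity
      have h2 : (0 : ℝ) < (J : ℝ) + 1 + 1 := by positivity
      have h3 : 1 / ((J : ℝ) + 1 + 1) ^ 2 ≤ 1 / ((J : ℝ) + 1) - 1 / ((J : ℝ) + 1 + 1) := by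
        rw [div_sub_div _ _ h1.ne' h2.ne', div_le_div_iff₀ (by positivity) (by positivity)]
        nlinarith
      push_cast
      linarith
  rcases J with _ | J
  · simp
  · have h1 : (0 : ℝ) ≤ 1 / ((J : ℝ) + 1) := by positivity
    linarith [h J]

theorem ite_sub_eq (p q r : Prop) {_ : Decidable p} {_ : Decidable q} {_ : Decidable r} (z : ℝ)
    (h1 : p ↔ q ∧ ¬ r) (h2 : r → q) :
    (if p then z else 0) = (if q then z else 0) - (if r then z else 0) := by
  by_cases hr : r
  · have hq := h2 hr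
    have hp : ¬ p := fun hp => (h1.1 hp).2 hr
    rw [if_neg hp, if_pos hq, if_pos hr, sub_self]
  · by_cases hq : q
    · rw [if_pos (h1.2 ⟨hq, hr⟩), if_pos hq, if_neg hr, sub_zero]
    · rw [if_neg (fun hp => hq (h1.1 hp).1), if_neg hq, if_neg hr, sub_zero]

open Classical in
theorem seg_round {R V E ι : Type*} [Fintype R] [Fintype V] [Fintype E] [Fintype ι]
    {par : R → V → V} {dep : R → V → ℕ} {G : R → SimpleGraph V}
    (hr : ∀ f, RootedBy (G f) (par f) (dep f)) (w : R → ℝ) (hw : ∀ f, 0 < w f) (vr : E → ι)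
    (c : E → ℝ) (fr : E → R) (b : E → V) (len g : E → ℕ) (hlen : ∀ e, len e ≤ 2 ^ (g e + 1))
    (hlen' : ∀ e, len e ≤ dep (fr e) (b e) + 1)
    (hb : ∀ i, ∑ e, (if vr e = i then |c e| * ((g e : ℝ) + 1) ^ 4 / w (fr e) else 0) ≤ 1)
    (x : ι → ℝ) :
    ∃ a : ι → ℤ, (∀ i, |x i - a i| ≤ 1) ∧ ∀ t,
      |∑ e, if OnSeg (par (fr e)) (dep (fr e)) (b e) (len e) t then
        (x (vr e) - a (vr e)) * c e else 0| ≤ 444 * ∑ f, w f := by
  set J := Finset.univ.sup g + 1 with hJ
  set T := (Finset.univ : Finset (R × V)).sup (fun s => dep s.1 s.2) + 1 with hT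
  have hgJ : ∀ e, g e < J := fun e => Nat.lt_succ_of_le (Finset.le_sup (Finset.mem_univ e))
  have hdT : ∀ f t, dep f t < T := fun f t => Nat.lt_succ_of_le
    (Finset.le_sup (f := fun s : R × V => dep s.1 s.2) (Finset.mem_univ (f, t)))
  set cv : R × Fin J × Fin T × Bool → R × ℕ × ℕ × Bool :=
    fun κ => (κ.1, (κ.2.1 : ℕ), (κ.2.2.1 : ℕ), κ.2.2.2) with hcv
  set P : R × Fin J × Fin T × Bool → ℕ → E → Option (R × V) := fun κ =>
    slab par dep fr b len g (cv κ) with hP
  set M : R × Fin J × Fin T × Bool → ℝ := fun κ => 37 * w κ.1 / ((κ.2.1 : ℕ) + 1 : ℝ) ^ 3 with hM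
  have hMpos : ∀ κ, 0 < M κ := fun κ => by
    have := hw κ.1
    simp only [hM]
    positivity
  obtain ⟨a, ha1, ha2⟩ := tower_round (fun ν : R × V => (ν.1, par ν.1 ν.2)) P
    (fun κ q e ν h => slab_par hr (cv κ) q e ν h) (fun κ => (κ.2.1 : ℕ) + 1) (by
      intro κ q e hq
      simp only [hP]
      unfold slab
      rw [if_neg]
      rintro ⟨-, -, -, -, h⟩
      have h1 : 2 ^ ((κ.2.1 : ℕ) + 1) < 2 ^ ((κ.2.1 : ℕ) + 1 + 1) :=
        Nat.pow_lt_pow_right (by norm_num) (by omega)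
      have h2 : q ≤ 2 ^ ((κ.2.1 : ℕ) + 1) := h
      omega) vr c M hMpos (by
      intro i
      have h1 : ∀ e, ∑ κ, (if P κ 0 e ≠ none then
          6 * ((((κ.2.1 : ℕ) + 1 : ℕ) : ℝ) + 1) / M κ else 0) ≤
          36 / 37 * (((g e : ℝ) + 1) ^ 4 / w (fr e)) := by
        intro e
        have hwe := hw (fr e)
        have hge : (0 : ℝ) ≤ g e := Nat.cast_nonneg _
        rw [← Finset.sum_filter]
        have h2 : ∀ κ ∈ (Finset.univ.filter fun κ => P κ 0 e ≠ none),
            6 * ((((κ.2.1 : ℕ) + 1 : ℕ) : ℝ) + 1) / M κ ≤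
              12 / 37 * (((g e : ℝ) + 1) ^ 4 / w (fr e)) := by
          intro κ hκ
          have h3 := (Finset.mem_filter.1 hκ).2
          simp only [hP] at h3
          unfold slab at h3
          simp only [ne_eq, ite_eq_right_iff, not_forall] at h3
          obtain ⟨⟨h4, h5, -⟩, -⟩ := h3
          have h6 : (κ.2.1 : ℕ) = g e := h5.symm
          have h7 : κ.1 = fr e := h4.symm
          simp only [hM]
          rw [h6, h7]
          push_cast
          have h8 : 6 * ((g e : ℝ) + 1 + 1) / (37 * w (fr e) / ((g e : ℝ) + 1) ^ 3) =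
              (6 * ((g e : ℝ) + 1 + 1) * ((g e : ℝ) + 1) ^ 3) / (37 * w (fr e)) := by
            rw [div_div_eq_mul_div]
          rw [h8, show 12 / 37 * (((g e : ℝ) + 1) ^ 4 / w (fr e)) =
            (12 * ((g e : ℝ) + 1) ^ 4) / (37 * w (fr e)) by rw [div_mul_div_comm]]
          refine div_le_div_of_nonneg_right ?_ (by positivity)
          have h9 : (0 : ℝ) ≤ ((g e : ℝ) + 1) ^ 3 := by positivity
          nlinarith
        have h3 : ((Finset.univ.filter fun κ => P κ 0 e ≠ none).card : ℝ) ≤ 3 := by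
          exact_mod_cast slab_card (par := par) (dep := dep) (fr := fr) (b := b) J T e (hlen e)
        refine (Finset.sum_le_sum h2).trans ?_
        rw [Finset.sum_const, nsmul_eq_mul]
        have h4 : (0 : ℝ) ≤ 12 / 37 * (((g e : ℝ) + 1) ^ 4 / w (fr e)) := by positivity
        nlinarith
      have h2 : ∑ κ, 6 * ((((κ.2.1 : ℕ) + 1 : ℕ) : ℝ) + 1) / M κ *
          (∑ e, if vr e = i ∧ P κ 0 e ≠ none then |c e| else 0) =
          ∑ e, if vr e = i then |c e| * ∑ κ, (if P κ 0 e ≠ none then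
            6 * ((((κ.2.1 : ℕ) + 1 : ℕ) : ℝ) + 1) / M κ else 0) else 0 := by
        simp_rw [Finset.mul_sum]
        rw [Finset.sum_comm]
        refine Finset.sum_congr rfl fun e _ => ?_
        by_cases hv : vr e = i
        · rw [if_pos hv]
          refine Finset.sum_congr rfl fun κ _ => ?_
          by_cases hn : P κ 0 e ≠ none
          · rw [if_pos ⟨hv, hn⟩, if_pos hn, mul_comm]
          · rw [if_neg (fun h => hn h.2), if_neg hn, mul_zero, mul_zero]
        · rw [if_neg hv]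
          exact Finset.sum_eq_zero fun κ _ => by rw [if_neg (fun h => hv h.1), mul_zero]
      rw [h2]
      have h3 : ∑ e, (if vr e = i then |c e| * ∑ κ, (if P κ 0 e ≠ none then
            6 * ((((κ.2.1 : ℕ) + 1 : ℕ) : ℝ) + 1) / M κ else 0) else 0) ≤
          36 / 37 * ∑ e, (if vr e = i then |c e| * ((g e : ℝ) + 1) ^ 4 / w (fr e) else 0) := by
        rw [Finset.mul_sum]
        refine Finset.sum_le_sum fun e _ => ?_
        by_cases hv : vr e = i
        · rw [if_pos hv, if_pos hv]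
          have := mul_le_mul_of_nonneg_left (h1 e) (abs_nonneg (c e))
          refine this.trans_eq ?_
          ring
        · rw [if_neg hv, if_neg hv, mul_zero]
      have h4 := hb i
      linarith) x
  refine ⟨a, ha1, fun t => ?_⟩
  set y : E → ℝ := fun e => (x (vr e) - a (vr e)) * c e with hy
  have hk : ∀ (f : R) (j : Fin J), dep f t / 2 ^ ((j : ℕ) + 1) < T := fun f j =>
    (Nat.div_le_self _ _).trans_lt (hdT f t)
  have hdec : ∀ e, (if OnSeg (par (fr e)) (dep (fr e)) (b e) (len e) t then y e else 0) =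
      ∑ f, ∑ j : Fin J,
        ((if P (f, j, ⟨_, hk f j⟩, true) (dep f t % 2 ^ ((j : ℕ) + 1) + 1) e = some (f, t)
          then y e else 0) -
        (if P (f, j, ⟨_, hk f j⟩, false) (dep f t % 2 ^ ((j : ℕ) + 1) + 1) e = some (f, t)
          then y e else 0)) := by
    intro e
    rw [Finset.sum_eq_single_of_mem (fr e) (Finset.mem_univ _),
      Finset.sum_eq_single_of_mem (⟨g e, hgJ e⟩ : Fin J) (Finset.mem_univ _)]
    · simp only [hP, hcv]
      simp only [slab_eq_iff]
      simp only [true_and, if_true, Bool.false_eq_true, if_false]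
      have h1 : dep (fr e) t < (dep (fr e) t / 2 ^ (g e + 1) + 1) * 2 ^ (g e + 1) := by
        rw [Nat.succ_mul]
        exact Nat.lt_div_mul_add (by positivity)
      have h2 := hlen' e
      unfold OnSeg
      refine ite_sub_eq _ _ _ _ ?_ ?_
      · constructor
        · rintro ⟨h3, h4, h5⟩
          exact ⟨⟨by omega, by omega, h4⟩, fun h => by have := h.2.1; omega⟩
        · rintro ⟨⟨h3, h4, h5⟩, h6⟩
          refine ⟨by omega, h5, ?_⟩
          by_contra h7
          exact h6 ⟨h3, by omega, h5⟩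
      · rintro ⟨h3, h4, h5⟩
        exact ⟨h3, by omega, h5⟩
    · intro j _ hj
      simp only [hP, hcv]
      simp only [slab_eq_iff]
      have h1 : ¬ g e = (j : ℕ) := fun h => hj (Fin.ext h.symm)
      rw [if_neg (fun h => h1 h.2.1), if_neg (fun h => h1 h.2.1), sub_self]
    · intro f _ hf
      refine Finset.sum_eq_zero fun j _ => ?_
      simp only [hP, hcv]
      simp only [slab_eq_iff]
      rw [if_neg (fun h => hf h.1.symm), if_neg (fun h => hf h.1.symm), sub_self]
  have hrow : ∑ e, (if OnSeg (par (fr e)) (dep (fr e)) (b e) (len e) t then y e else 0) =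
      ∑ f, ∑ j : Fin J,
        (∑ e, (if P (f, j, ⟨_, hk f j⟩, true) (dep f t % 2 ^ ((j : ℕ) + 1) + 1) e = some (f, t)
          then y e else 0) -
        ∑ e, (if P (f, j, ⟨_, hk f j⟩, false) (dep f t % 2 ^ ((j : ℕ) + 1) + 1) e = some (f, t)
          then y e else 0)) := by
    rw [Finset.sum_congr rfl fun e _ => hdec e, Finset.sum_comm]
    refine Finset.sum_congr rfl fun f _ => ?_
    rw [Finset.sum_comm]
    refine Finset.sum_congr rfl fun j _ => ?_
    rw [Finset.sum_sub_distrib]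
  rw [hrow]
  calc |∑ f, ∑ j : Fin J,
        (∑ e, (if P (f, j, ⟨_, hk f j⟩, true) (dep f t % 2 ^ ((j : ℕ) + 1) + 1) e = some (f, t)
          then y e else 0) -
        ∑ e, (if P (f, j, ⟨_, hk f j⟩, false) (dep f t % 2 ^ ((j : ℕ) + 1) + 1) e = some (f, t)
          then y e else 0))| ≤ ∑ f, ∑ j : Fin J, 222 * w f * (1 / (((j : ℕ) : ℝ) + 1) ^ 2) := by
        refine (Finset.abs_sum_le_sum_abs _ _).trans (Finset.sum_le_sum fun f _ => ?_)
        refine (Finset.abs_sum_le_sum_abs _ _).trans (Finset.sum_le_sum fun j _ => ?_)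
        have h1 := ha2 (f, j, ⟨_, hk f j⟩, true) (dep f t % 2 ^ ((j : ℕ) + 1)) (f, t)
        have h2 := ha2 (f, j, ⟨_, hk f j⟩, false) (dep f t % 2 ^ ((j : ℕ) + 1)) (f, t)
        simp only [hM] at h1 h2
        push_cast at h1 h2
        have hwf := hw f
        have hj0 : (0 : ℝ) ≤ ((j : ℕ) : ℝ) := Nat.cast_nonneg _
        have h3 : (((j : ℕ) : ℝ) + 1 + 2) * (37 * w f / (((j : ℕ) : ℝ) + 1) ^ 3) ≤
            111 * w f * (1 / (((j : ℕ) : ℝ) + 1) ^ 2) := by
          rw [← mul_div_assoc, mul_one_div, div_le_div_iff₀ (by positivity) (by positivity)]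
          have h4 : 0 ≤ w f * (((j : ℕ) : ℝ) + 1) ^ 2 := by positivity
          nlinarith
        refine (abs_sub _ _).trans ?_
        have h5 : (222 : ℝ) * w f * (1 / (((j : ℕ) : ℝ) + 1) ^ 2) =
            111 * w f * (1 / (((j : ℕ) : ℝ) + 1) ^ 2) + 111 * w f * (1 / (((j : ℕ) : ℝ) + 1) ^ 2) := by
          ring
        rw [h5]
        exact add_le_add (h1.trans h3) (h2.trans h3)
    _ ≤ ∑ f, 444 * w f := by
        refine Finset.sum_le_sum fun f _ => ?_
        rw [← Finset.mul_sum, Fin.sum_univ_eq_sum_range (fun j => 1 / ((j : ℝ) + 1) ^ 2) J]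
        have := mul_le_mul_of_nonneg_left (sum_inv_sq J)
          (by have := hw f; positivity : (0 : ℝ) ≤ 222 * w f)
        linarith
    _ = _ := by rw [Finset.mul_sum]

end Pool.Agent.Lib.MP_183cce_co.TP
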