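import Pool.Agent.Lib.MP_183cce_co.TP.Ref
import Pool.Agent.Lib.MP_183cce_co.TP.Engine

/-!
# Rounding for several laminar families of bounded height
-/

set_option autoImplicit false

namespace Pool.Agent.Lib.MP_183cce_co.TP

open Pool.Agent.Lib.MP_183cce_co

section mass

variable {E ι : Type*} [Fintype E] [DecidableEq ι]

/-- the row of the elements with property `p` -/
noncomputable def row (vr : E → ι) (c : E → ℝ) (p : E → Prop) [DecidablePred p] (i : ι) : ℝ :=
  ∑ e, if p e ∧ vr e = i then c e else 0

theorem row_mass (vr : E → ι) (c : E → ℝ) (p : E → Prop) [DecidablePred p] (F : Finset ι) :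
    ∑ i ∈ F, |row vr c p i| ≤ ∑ e, if p e ∧ vr e ∈ F then |c e| else 0 := by
  calc ∑ i ∈ F, |row vr c p i| ≤ ∑ i ∈ F, ∑ e, if p e ∧ vr e = i then |c e| else 0 := by
        refine Finset.sum_le_sum fun i _ => ?_
        refine (Finset.abs_sum_le_sum_abs _ _).trans (Finset.sum_le_sum fun e _ => ?_)
        split_ifs <;> simp
    _ = ∑ e, ∑ i ∈ F, if p e ∧ vr e = i then |c e| else 0 := Finset.sum_comm
    _ = _ := by
        refine Finset.sum_congr rfl fun e _ => ?_
        by_cases hp : p e
        · simp only [hp, true_and]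
          rw [Finset.sum_ite_eq]
        · simp [hp]

theorem row_apply [Fintype ι] (vr : E → ι) (c : E → ℝ) (p : E → Prop) [DecidablePred p]
    (w : ι → ℝ) : ∑ i, w i * row vr c p i = ∑ e, if p e then w (vr e) * c e else 0 := by
  unfold row
  simp_rw [Finset.mul_sum]
  rw [Finset.sum_comm]
  refine Finset.sum_congr rfl fun e _ => ?_
  by_cases hp : p e
  · simp only [hp, true_and, if_true, mul_ite, mul_zero]
    rw [Finset.sum_ite_eq]
    simp
  · simp [hp]

theorem row_sub (vr : E → ι) (c : E → ℝ) (p r : E → Prop) [DecidablePred p] [DecidablePred r]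
    (h : ∀ e, r e → p e) (i : ι) :
    row vr c p i - row vr c r i = row vr c (fun e => p e ∧ ¬ r e) i := by
  unfold row
  rw [← Finset.sum_sub_distrib]
  refine Finset.sum_congr rfl fun e _ => ?_
  by_cases hr : r e
  · have hp := h e hr
    simp [hr, hp]
  · by_cases hp : p e <;> simp [hr, hp]

end mass

/-- **Rounding for laminar families of bounded height.** -/
theorem tower_round {K E N ι : Type*} [Fintype K] [Fintype E] [Fintype N] [DecidableEq N]
    [Fintype ι] [DecidableEq ι] (par : N → N) (P : K → ℕ → E → Option N)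
    (hP : ∀ κ q e ν, P κ (q + 1) e = some ν → P κ q e = some (par ν)) (L : K → ℕ)
    (hL : ∀ κ q e, 2 ^ (L κ + 1) ≤ q → P κ q e = none) (vr : E → ι) (c : E → ℝ) (M : K → ℝ)
    (hM : ∀ κ, 0 < M κ)
    (hb : ∀ i, ∑ κ, 6 * ((L κ : ℝ) + 1) / M κ *
      (∑ e, if vr e = i ∧ P κ 0 e ≠ none then |c e| else 0) < 1) (x : ι → ℝ) :
    ∃ a : ι → ℤ, (∀ i, |x i - a i| ≤ 1) ∧ ∀ κ q ν,
      |∑ e, if P κ (q + 1) e = some ν then (x (vr e) - a (vr e)) * c e else 0| ≤
        ((L κ : ℝ) + 2) * M κ := by
  classical
  set B : K × ℕ × N → ι → ℝ := fun s => row vr c (fun e => P s.1 (s.2.1 + 1) e = some s.2.2)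
    with hB
  set Φ : K × ℕ × N → ℝ := fun s =>
    (2 + ((L s.1 - padicValNat 2 (s.2.1 + 1) : ℕ) : ℝ)) * M s.1 with hΦ
  have hΦ0 : ∀ s, 0 ≤ Φ s := fun s => mul_nonneg (by positivity) (hM s.1).le
  obtain ⟨a, ha1, ha2⟩ := adapt B Φ hΦ0 (fun F hF => by
    set m : K → E → ℝ := fun κ e => if vr e ∈ F then |c e| / M κ else 0 with hm
    have hm0 : ∀ κ e, 0 ≤ m κ e := fun κ e => by
      simp only [hm]
      split_ifs
      · exact div_nonneg (abs_nonneg _) (hM κ).le
      · exact le_rfl
    have hmass : ∀ κ (p : E → Prop) [DecidablePred p],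
        ∑ i ∈ F, |row vr c p i| ≤ M κ * ∑ e, if p e then m κ e else 0 := by
      intro κ p _
      refine (row_mass vr c p F).trans ?_
      rw [Finset.mul_sum]
      refine Finset.sum_le_sum fun e _ => ?_
      by_cases hp : p e
      · by_cases hv : vr e ∈ F
        · simp only [hp, hv, and_self, if_true, hm]
          rw [mul_div_cancel₀ _ (hM κ).ne']
        · simp [hv, hm]
      · simp [hp]
    refine ⟨Finset.univ.biUnion fun κ => (spec (m κ) (P κ) par (L κ) (2 ^ (L κ + 1))).image
      fun s => (κ, s.1 - 1, s.2), ?_, ?_⟩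
    · -- the number of rows
      have h1 : ((Finset.univ.biUnion fun κ =>
          (spec (m κ) (P κ) par (L κ) (2 ^ (L κ + 1))).image
            fun s => (κ, s.1 - 1, s.2)).card : ℝ) ≤
          ∑ κ, 6 * ((L κ : ℝ) + 1) * ∑ e, if P κ 0 e = none then 0 else m κ e := by
        have h : (Finset.univ.biUnion fun κ =>
          (spec (m κ) (P κ) par (L κ) (2 ^ (L κ + 1))).image
            fun s => (κ, s.1 - 1, s.2)).card ≤
            ∑ κ, (spec (m κ) (P κ) par (L κ) (2 ^ (L κ + 1))).card :=
          Finset.card_biUnion_le.trans (Finset.sum_le_sum fun κ _ => Finset.card_image_le)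
        refine (Nat.cast_le.2 h).trans ?_
        push_cast
        exact Finset.sum_le_sum fun κ _ => spec_card (hm0 κ) (hP κ) _ _
      have h2 : ∑ κ, 6 * ((L κ : ℝ) + 1) * (∑ e, if P κ 0 e = none then 0 else m κ e) =
          ∑ i ∈ F, ∑ κ, 6 * ((L κ : ℝ) + 1) / M κ *
            (∑ e, if vr e = i ∧ P κ 0 e ≠ none then |c e| else 0) := by
        rw [Finset.sum_comm]
        refine Finset.sum_congr rfl fun κ _ => ?_
        rw [← Finset.mul_sum, Finset.sum_comm, div_mul_eq_mul_div, mul_div_assoc]
        congr 1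
        rw [Finset.sum_div]
        refine Finset.sum_congr rfl fun e _ => ?_
        by_cases hn : P κ 0 e = none
        · simp [hn]
        · simp only [hn, if_false, ne_eq, not_false_eq_true, and_true, hm]
          rw [Finset.sum_ite_eq]
          split_ifs <;> simp
      have h3 : ∑ i ∈ F, ∑ κ, 6 * ((L κ : ℝ) + 1) / M κ *
            (∑ e, if vr e = i ∧ P κ 0 e ≠ none then |c e| else 0) < (F.card : ℝ) := by
        calc _ < ∑ i ∈ F, (1 : ℝ) := Finset.sum_lt_sum_of_nonempty hF fun i _ => hb i
          _ = _ := by simp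
      exact_mod_cast (h1.trans_eq h2).trans_lt h3
    · -- references
      rintro ⟨κ, q, ν⟩
      by_cases hlight : fm (m κ) (P κ) (q + 1) ν ≤ 2
      · left
        have h1 := hmass κ (fun e => P κ (q + 1) e = some ν)
        have h2 : Φ (κ, q, ν) = (2 + ((L κ - padicValNat 2 (q + 1) : ℕ) : ℝ)) * M κ := rfl
        have h3 : (0 : ℝ) ≤ ((L κ - padicValNat 2 (q + 1) : ℕ) : ℝ) := Nat.cast_nonneg _
        have h4 : M κ * fm (m κ) (P κ) (q + 1) ν ≤ M κ * 2 :=
          mul_le_mul_of_nonneg_left hlight (hM κ).le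
        have h5 := hM κ
        rw [h2]
        refine (h1.trans h4).trans ?_
        nlinarith
      · right
        push Not at hlight
        obtain ⟨d, μ, hspec, hle, hpar, hdiff, hval, hvL⟩ :=
          exists_ref (hm0 κ) (hP κ) (hL κ) (Nat.succ_le_succ (Nat.zero_le q)) ν hlight
        have hd1 : d - 1 + 1 = d := by omega
        refine ⟨(κ, d - 1, μ), ?_, ?_⟩
        · rw [Finset.mem_biUnion]
          exact ⟨κ, Finset.mem_univ _, Finset.mem_image.2 ⟨(d, μ), hspec, rfl⟩⟩
        · have hsub : ∀ e, P κ (d - 1 + 1) e = some μ → P κ (q + 1) e = some ν := by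
            intro e he
            rw [hd1] at he
            have h := P_iter (hP κ) (d - (q + 1)) (q + 1) e μ (by
              rw [Nat.add_sub_cancel' hle]
              exact he)
            rw [h, hpar]
          have h1 : ∑ i ∈ F, |B (κ, q, ν) i - B (κ, d - 1, μ) i| ≤
              M κ * (fm (m κ) (P κ) (q + 1) ν - fm (m κ) (P κ) d μ) := by
            have e1 : ∀ i, B (κ, q, ν) i - B (κ, d - 1, μ) i =
                row vr c (fun e => P κ (q + 1) e = some ν ∧ ¬ P κ (d - 1 + 1) e = some μ) i :=
              fun i => row_sub vr c _ _ hsub i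
            simp_rw [e1]
            refine (hmass κ _).trans_eq ?_
            congr 1
            unfold fm
            rw [← Finset.sum_sub_distrib]
            refine Finset.sum_congr rfl fun e _ => ?_
            rw [hd1] at hsub ⊢
            by_cases h3 : P κ d e = some μ
            · have h4 := hsub e h3
              simp [h3, h4]
            · by_cases h4 : P κ (q + 1) e = some ν <;> simp [h3, h4]
          rcases hval with ⟨hdq, hμ⟩ | hval
          · have h2 : fm (m κ) (P κ) (q + 1) ν - fm (m κ) (P κ) d μ = 0 := by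
              rw [hdq, hμ, sub_self]
            rw [h2, mul_zero] at h1
            have h3 : Φ (κ, d - 1, μ) = Φ (κ, q, ν) := by
              simp only [hΦ]
              rw [hd1, hdq]
            rw [h3]
            linarith
          · have h2 : M κ * (fm (m κ) (P κ) (q + 1) ν - fm (m κ) (P κ) d μ) ≤ M κ * 1 :=
              mul_le_mul_of_nonneg_left hdiff (hM κ).le
            have h3 : Φ (κ, d - 1, μ) + M κ ≤ Φ (κ, q, ν) := by
              simp only [hΦ]
              rw [hd1]
              have h4 : ((L κ - padicValNat 2 d : ℕ) : ℝ) + 1 ≤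
                  ((L κ - padicValNat 2 (q + 1) : ℕ) : ℝ) := by
                have hval' : padicValNat 2 (q + 1) < padicValNat 2 d := hval
                have : (L κ - padicValNat 2 d) + 1 ≤ L κ - padicValNat 2 (q + 1) := by omega
                exact_mod_cast this
              have h5 := hM κ
              nlinarith
            linarith) x
  refine ⟨a, ha1, fun κ q ν => ?_⟩
  have h1 := ha2 (κ, q, ν)
  have h2 : ∑ i, (x i - a i) * B (κ, q, ν) i =
      ∑ e, if P κ (q + 1) e = some ν then (x (vr e) - a (vr e)) * c e else 0 :=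
    row_apply vr c _ fun i => x i - a i
  rw [h2] at h1
  refine h1.trans ?_
  simp only [hΦ]
  have h3 : ((L κ - padicValNat 2 (q + 1) : ℕ) : ℝ) ≤ L κ := by
    exact_mod_cast Nat.sub_le _ _
  have h4 := hM κ
  nlinarith

end Pool.Agent.Lib.MP_183cce_co.TP
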